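import Pool.Agent.Helper77.PH.Quot

/-!
# The diffeomorphism `f` of the threefold and derivatives on the covering space
-/

open Complex Set Filter Topology
open scoped ContDiff Manifold ComplexConjugate
noncomputable section

namespace Pool.Agent.Helper77.PH

/-- A map is `C^n` if its composition with a surjective local diffeomorphism is. -/
theorem contMDiff_of_comp {𝕜 : Type*} [NontriviallyNormedField 𝕜]
    {E E' : Type*} [NormedAddCommGroup E] [NormedSpace 𝕜 E]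
    [NormedAddCommGroup E'] [NormedSpace 𝕜 E']
    {H H' : Type*} [TopologicalSpace H] [TopologicalSpace H']
    {I : ModelWithCorners 𝕜 E H} {I' : ModelWithCorners 𝕜 E' H'} {n : WithTop ℕ∞}
    {A B C : Type*} [TopologicalSpace A] [ChartedSpace H A] [TopologicalSpace B]
    [ChartedSpace H B] [TopologicalSpace C] [ChartedSpace H' C]
    {p : A → B} (hp : IsLocalDiffeomorph I I n p) (hs : Function.Surjective p) {F : B → C}
    (hF : ContMDiff I I' n (F ∘ p)) : ContMDiff I I' n F := by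
  intro b
  obtain ⟨a, rfl⟩ := hs b
  obtain ⟨Φ, ha, heq⟩ := hp a
  have hpa : Φ.toFun a = p a := (heq ha).symm
  have hb : p a ∈ Φ.target := by
    rw [← hpa]; exact Φ.map_source' ha
  have h1 : ContMDiffAt I I n Φ.invFun (p a) :=
    Φ.contMDiffOn_invFun.contMDiffAt (Φ.open_target.mem_nhds hb)
  have h2 : ContMDiffAt I I' n ((F ∘ p) ∘ Φ.invFun) (p a) := hF.contMDiffAt.comp _ h1
  refine h2.congr_of_eventuallyEq ?_
  filter_upwards [Φ.open_target.mem_nhds hb] with y hy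
  have h3 : Φ.invFun y ∈ Φ.source := Φ.map_target' hy
  have h4 : p (Φ.invFun y) = y := by
    rw [heq h3]; exact Φ.right_inv' hy
  rw [Function.comp_apply, Function.comp_apply, h4]

/-! ## Maps of the covering space -/

/-- `(p, v) ↦ (p, A^m v)` -/
def FN (m : ℤ) (x : N) : N := (x.1, Apow m x.2)

theorem FN_fst (m : ℤ) (x : N) : (FN m x).1 = x.1 := rfl

theorem FN_snd (m : ℤ) (x : N) : (FN m x).2 = Apow m x.2 := rfl

theorem FN_zero (x : N) : FN 0 x = x := by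
  apply Prod.ext
  · rfl
  · exact Apow_zero _

theorem FN_add (m n : ℤ) (x : N) : FN (m + n) x = FN m (FN n x) := by
  apply Prod.ext
  · rfl
  · exact Apow_add _ _ _

theorem contMDiff_FN (m : ℤ) : ContMDiff 𝓘(ℂ, ℂ × ℂ × ℂ) 𝓘(ℂ, ℂ × ℂ × ℂ) ω (FN m) := by
  have h : ContMDiff (𝓘(ℂ, ℂ).prod 𝓘(ℂ, ℂ × ℂ)) (𝓘(ℂ, ℂ).prod 𝓘(ℂ, ℂ × ℂ)) ω
      (fun x : X × (ℂ × ℂ) => (x.1, Apow m x.2)) := by
    apply ContMDiff.prodMk
    · exact contMDiff_fst
    · exact (contDiff_Apow m).contMDiff.comp contMDiff_snd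
  rw [← modelWithCornersSelf_prod] at h
  exact h

/-- the group element that corresponds to `g` under `FN k` -/
def Gconj (k : ℤ) (g : G) : G := ⟨g.m, g.n, Apow k g.l, Apow_mem _ g.hl⟩

theorem FN_smul (k : ℤ) (g : G) (x : N) : FN k (g • x) = Gconj k g • FN k x := by
  apply Prod.ext
  · rfl
  · change Apow k (Apow g.m x.2 + g.l) = Apow g.m (Apow k x.2) + Apow k g.l
    rw [Apow_vadd, ← Apow_add, ← Apow_add, add_comm k]

/-- the map of `M` induced by `FN k` -/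
def FM (k : ℤ) : M → M := Quotient.lift (fun x => pM (FN k x)) (by
  rintro x y h
  obtain ⟨g, hg⟩ := h
  have hg' : g • y = x := hg
  change pM (FN k x) = pM (FN k y)
  rw [← hg', FN_smul, pM_smul])

theorem FM_pM (k : ℤ) (x : N) : FM k (pM x) = pM (FN k x) := rfl

theorem FM_zero (y : M) : FM 0 y = y := by
  obtain ⟨x, rfl⟩ := surjective_pM y
  rw [FM_pM, FN_zero]

theorem FM_add (m n : ℤ) (y : M) : FM (m + n) y = FM m (FM n y) := by
  obtain ⟨x, rfl⟩ := surjective_pM y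
  rw [FM_pM, FM_pM, FM_pM, FN_add]

theorem contMDiff_FM (k : ℤ) : ContMDiff 𝓘(ℂ, ℂ × ℂ × ℂ) 𝓘(ℂ, ℂ × ℂ × ℂ) ω (FM k) := by
  apply contMDiff_of_comp isLocalDiffeomorph_pM surjective_pM
  exact isLocalDiffeomorph_pM.contMDiff.comp (contMDiff_FN k)

/-- The holomorphic diffeomorphism `f [p, v] = [p, A v]` of `M`. -/
def fM : M ≃ₘ^ω⟮𝓘(ℂ, ℂ × ℂ × ℂ), 𝓘(ℂ, ℂ × ℂ × ℂ)⟯ M where
  toFun := FM 1
  invFun := FM (-1)
  left_inv y := by rw [← FM_add]; exact FM_zero y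
  right_inv y := by rw [← FM_add]; exact FM_zero y
  contMDiff_toFun := contMDiff_FM 1
  contMDiff_invFun := contMDiff_FM (-1)

theorem fM_apply (y : M) : fM y = FM 1 y := rfl

theorem fM_iterate (m : ℕ) (y : M) : (fM : M → M)^[m] y = FM m y := by
  induction m generalizing y with
  | zero => rw [Function.iterate_zero, id_eq]; exact (FM_zero y).symm
  | succ k ih =>
    rw [Function.iterate_succ_apply, ih, fM_apply, ← FM_add]
    congr 1

/-- Horizontal motion: `f^m [act m 0 p, v] = [p, v]`. -/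
theorem FM_act (m : ℤ) (p : X) (v : ℂ × ℂ) :
    FM m (pM ((act m 0 p, v) : X × (ℂ × ℂ))) = pM ((p, v) : X × (ℂ × ℂ)) := by
  rw [FM_pM, pM_eq_iff]
  refine ⟨⟨-m, 0, 0, Lat.zero_mem⟩, ?_⟩
  apply Prod.ext
  · change act (-m) 0 (act m 0 p) = p
    rw [act_act]
    simp [act_zero]
  · change Apow (-m) (Apow m v) + 0 = v
    rw [← Apow_add]
    simp [Apow_zero]

/-! ## Derivatives on the covering space -/

/-- a tangent vector of `N`, as an element of `ℂ³` -/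
theorem chartAt_N (x : N) :
    (chartAt (ℂ × ℂ × ℂ) x : N → ℂ × ℂ × ℂ) = fun y => (chartX x.1 y.1, y.2) := rfl

theorem chartAt_N_symm (x : N) :
    ((chartAt (ℂ × ℂ × ℂ) x).symm : ℂ × ℂ × ℂ → N) =
      fun e => ((chartX x.1).symm e.1, e.2) := rfl

/-- derivative of a map of `N` whose expression in the preferred charts is known -/
theorem mfderiv_N_eq {F : N → N} {x : N} (hF : MDifferentiableAt 𝓘(ℂ, ℂ × ℂ × ℂ) 𝓘(ℂ, ℂ × ℂ × ℂ) F x)
    {D : ℂ × ℂ × ℂ →L[ℂ] ℂ × ℂ × ℂ} {G' : ℂ × ℂ × ℂ → ℂ × ℂ × ℂ}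
    (hG : (fun e : ℂ × ℂ × ℂ => ((chartX (F x).1 (F ((chartX x.1).symm e.1, e.2)).1,
      (F ((chartX x.1).symm e.1, e.2)).2) : ℂ × ℂ × ℂ)) =ᶠ[𝓝 ((chartX x.1 x.1, x.2) : ℂ × ℂ × ℂ)] G')
    (hD : HasFDerivAt G' D (chartX x.1 x.1, x.2)) (ξ : ℂ × ℂ × ℂ) :
    (mfderiv 𝓘(ℂ, ℂ × ℂ × ℂ) 𝓘(ℂ, ℂ × ℂ × ℂ) F x ξ : ℂ × ℂ × ℂ) = D ξ := by
  rw [mfderiv, if_pos hF, writtenInExtChartAt]
  simp only [extChartAt_coe, extChartAt_coe_symm, modelWithCornersSelf_coe,
    modelWithCornersSelf_coe_symm, Function.id_comp, Function.comp_id, range_id,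
    fderivWithin_univ, chartAt_N, chartAt_N_symm]
  have h1 : ((fun y : N => ((chartX (F x).1 y.1, y.2) : ℂ × ℂ × ℂ)) ∘ F ∘
      fun e : ℂ × ℂ × ℂ => (((chartX x.1).symm e.1, e.2) : N)) =ᶠ[𝓝 ((chartX x.1 x.1, x.2) :
      ℂ × ℂ × ℂ)] G' := hG
  rw [h1.fderiv_eq, hD.fderiv]
  rfl

end Pool.Agent.Helper77.PH
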