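import Pool.Agent.Helper77.PH.Frame2
import Pool.Agent.Helper84.PH.Final1

/-!
# The statement for the torus bundle over the curve of genus `3`
-/

open Complex Set Filter Topology
open scoped ContDiff Manifold ComplexConjugate
noncomputable section

namespace Pool.Agent.Helper77.PH

universe u

open HolPH (C3 C2 I3)

theorem fM_coe : (fM : M → M) = FM 1 := rfl

theorem NM_fM (q : TangentBundle I3 M) :
    NcM ⟨fM q.1, mfderiv I3 I3 fM q.1 q.2⟩ = NcM q ∧
    NsM ⟨fM q.1, mfderiv I3 I3 fM q.1 q.2⟩ = mu⁻¹ * NsM q ∧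
    NuM ⟨fM q.1, mfderiv I3 I3 fM q.1 q.2⟩ = mu⁻¹⁻¹ * NuM q := by
  have h := NM_FM 1 q
  rw [zpow_neg, zpow_one] at h
  rw [inv_inv]
  exact h

theorem statement_curve : HolPH.Statement.{u} := by
  refine HolPH.statement_of_frame LM continuous_NcM continuous_NsM continuous_NuM mu⁻¹
    (inv_pos.2 mu_pos) (inv_lt_one_of_one_lt₀ mu_gt_one) ?_ ?_ ?_ ?_ ?_ ?_
  · intro x v
    exact (NM_fM ⟨x, v⟩).1
  · intro x v
    exact (NM_fM ⟨x, v⟩).2.1
  · intro x v
    exact (NM_fM ⟨x, v⟩).2.2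
  · intro x u hu
    refine (NM_pM x u).1.trans ?_
    change ‖cc x.1 * (u : C3).1‖ = 0
    rw [hu]; simp
  · intro x u hu
    refine (NM_pM x u).2.1.trans ?_
    change mup (X.z x.1).re * ‖(u : C3).2.2‖ = 0
    rw [hu]; simp
  · intro x u hu
    refine (NM_pM x u).2.2.trans ?_
    change mup (-(X.z x.1).re) * ‖(u : C3).2.1‖ = 0
    rw [hu]; simp

end Pool.Agent.Helper77.PH
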