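import Pool.Agent.Helper77.PH.Map
import Pool.Agent.Helper84.PH.Defs

/-!
# The frame of the threefold `M`
-/

open Complex Set Filter Topology
open scoped ContDiff Manifold ComplexConjugate
noncomputable section

namespace Pool.Agent.Helper77.PH

open HolPH (C3 C2 I3)

/-! ## General lemmas on tangent maps -/

section general

variable {𝕜 : Type*} [NontriviallyNormedField 𝕜]
  {E : Type*} [NormedAddCommGroup E] [NormedSpace 𝕜 E] {H : Type*} [TopologicalSpace H]
  {I : ModelWithCorners 𝕜 E H} {A B : Type*} [TopologicalSpace A] [ChartedSpace H A]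
  [IsManifold I 1 A] [TopologicalSpace B] [ChartedSpace H B] [IsManifold I 1 B]
  {W : Type*} [NormedAddCommGroup W] [NormedSpace 𝕜 W]

/-- The derivative of a vector valued function is continuous on the tangent bundle. -/
theorem continuousOn_mfderiv {F : A → W} {s : Set A} (hs : IsOpen s)
    (hF : ContMDiffOn I 𝓘(𝕜, W) 1 F s) :
    ContinuousOn (fun q : TangentBundle I A => (mfderiv I 𝓘(𝕜, W) F q.1 q.2 : W))
      (Bundle.TotalSpace.proj ⁻¹' s) := by
  have h1 := hF.continuousOn_tangentMapWithin le_rfl hs.uniqueMDiffOn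
  have h2 : Continuous (fun p : TangentBundle 𝓘(𝕜, W) W => (p.2 : W)) :=
    (contMDiff_snd_tangentBundle_modelSpace W 𝓘(𝕜, W) (n := 0)).continuous
  refine (h2.comp_continuousOn h1).congr ?_
  intro q hq
  change (mfderiv I 𝓘(𝕜, W) F q.1 q.2 : W) = (mfderivWithin I 𝓘(𝕜, W) F s q.1 q.2 : W)
  rw [mfderivWithin_of_isOpen hs hq]

/-- A function on the tangent bundle is continuous if its composition with the tangent map of a
surjective local diffeomorphism is. -/
theorem continuous_of_comp_tangentMap {n : WithTop ℕ∞} (hn : 1 ≤ n) {p : A → B}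
    (hp : IsLocalDiffeomorph I I n p) (hs : Function.Surjective p) {Z : Type*} [TopologicalSpace Z] {F : TangentBundle I B → Z}
    (hF : Continuous fun q : TangentBundle I A => F ⟨p q.1, mfderiv I I p q.1 q.2⟩) :
    Continuous F := by
  rw [continuous_iff_continuousAt]
  intro q
  obtain ⟨a, ha⟩ := hs q.1
  obtain ⟨Φ, haΦ, heq⟩ := hp a
  have hpa : Φ.toFun a = p a := (heq haΦ).symm
  have hb : q.1 ∈ Φ.target := by
    rw [← ha, ← hpa]; exact Φ.map_source' haΦ
  have h1 : ContinuousOn (tangentMapWithin I I Φ.invFun Φ.target)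
      (Bundle.TotalSpace.proj ⁻¹' Φ.target) :=
    (Φ.contMDiffOn_invFun.of_le hn).continuousOn_tangentMapWithin le_rfl
      Φ.open_target.uniqueMDiffOn
  have hopen : IsOpen (Bundle.TotalSpace.proj ⁻¹' Φ.target : Set (TangentBundle I B)) :=
    Φ.open_target.preimage (FiberBundle.continuous_proj E (TangentSpace I))
  have h2 : ContinuousOn (fun q : TangentBundle I B =>
      F ⟨p (tangentMapWithin I I Φ.invFun Φ.target q).1,
        mfderiv I I p (tangentMapWithin I I Φ.invFun Φ.target q).1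
          (tangentMapWithin I I Φ.invFun Φ.target q).2⟩) (Bundle.TotalSpace.proj ⁻¹' Φ.target) :=
    hF.comp_continuousOn h1
  refine (h2.congr ?_).continuousAt (hopen.mem_nhds hb)
  rintro ⟨y, v⟩ hy
  have hy' : y ∈ Φ.target := hy
  have h3 : Φ.invFun y ∈ Φ.source := Φ.map_target' hy'
  have h4 : p (Φ.invFun y) = y := by
    rw [heq h3]; exact Φ.right_inv' hy'
  have hd1 : MDifferentiableAt I I Φ.invFun y :=
    ((Φ.contMDiffOn_invFun.contMDiffAt (Φ.open_target.mem_nhds hy')).of_le hn).mdifferentiableAt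
      one_ne_zero
  have hd2 : MDifferentiableAt I I p (Φ.invFun y) :=
    ((hp (Φ.invFun y)).contMDiffAt.of_le hn).mdifferentiableAt one_ne_zero
  have h5 : mfderiv I I (p ∘ Φ.invFun) y v = v := by
    have : (p ∘ Φ.invFun) =ᶠ[𝓝 y] id := by
      filter_upwards [Φ.open_target.mem_nhds hy'] with u hu
      have h3 : Φ.invFun u ∈ Φ.source := Φ.map_target' hu
      rw [Function.comp_apply, heq h3]; exact Φ.right_inv' hu
    rw [this.mfderiv_eq, mfderiv_id]
    rfl
  rw [mfderiv_comp y hd2 hd1] at h5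
  have h6 : (tangentMapWithin I I Φ.invFun Φ.target ⟨y, v⟩) =
      (⟨Φ.invFun y, mfderiv I I Φ.invFun y v⟩ : TangentBundle I A) := by
    unfold tangentMapWithin
    rw [mfderivWithin_of_isOpen Φ.open_target hy']
  beta_reduce
  rw [h6]
  change F ⟨y, v⟩ = F ⟨p (Φ.invFun y), mfderiv I I p (Φ.invFun y) (mfderiv I I Φ.invFun y v)⟩
  have h7 : mfderiv I I p (Φ.invFun y) (mfderiv I I Φ.invFun y v) = v := h5
  have key : ∀ (y' : B) (v' : TangentSpace I y'), y' = y → (v' : E) = (v : E) →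
      (⟨y, v⟩ : TangentBundle I B) = ⟨y', v'⟩ := by
    rintro _ _ rfl rfl
    rfl
  rw [key _ _ h4 h7]

end general

/-! ## Derivatives on `N` -/

/-- the action in the charts of `X` -/
theorem chart_act (m n : ℤ) (p : X) : ∃ c : ℂ, ∀ᶠ u in 𝓝 (chartX p p),
    chartX (act m n p) (act m n ((chartX p).symm u)) = u + c := by
  by_cases hp : p.w = 0
  · have hp' : (act m n p).w = 0 := hp
    refine ⟨0, ?_⟩
    rw [chartX_of_eq hp, chartX_of_eq hp']
    have h2 : (chartB p hp) p ∈ (chartB p hp).target :=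
      (chartB p hp).map_source (self_mem_box _)
    filter_upwards [(chartB p hp).open_target.mem_nhds h2] with u hu
    change cj (flag (p.z + (m + n * I))) (invB p u).w = u + 0
    rw [flag_add_int, invB_w hp hu, cj_cj, add_zero]
  · have hp' : (act m n p).w ≠ 0 := hp
    refine ⟨m + n * I, Eventually.of_forall ?_⟩
    intro u
    rw [chartX_of_ne hp, chartX_of_ne hp']
    rfl

/-- `A^m` as a continuous linear map -/
def AL (m : ℤ) : ℂ × ℂ →L[ℂ] ℂ × ℂ :=
  (((mu : ℂ) ^ m) • ContinuousLinearMap.fst ℂ ℂ ℂ).prod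
    (((mu : ℂ) ^ (-m)) • ContinuousLinearMap.snd ℂ ℂ ℂ)

theorem AL_apply (m : ℤ) (v : ℂ × ℂ) : AL m v = Apow m v := by
  unfold AL Apow
  simp

theorem mfderiv_smul_G (g : G) (x : N) (ξ : C3) :
    (mfderiv I3 I3 (fun y : N => g • y) x ξ : C3) = (ξ.1, Apow g.m ξ.2) := by
  obtain ⟨c, hc⟩ := chart_act g.m g.n x.1
  have hcont : Tendsto (fun e : C3 => e.1) (𝓝 ((chartX x.1 x.1, x.2) : C3))
      (𝓝 (chartX x.1 x.1)) := continuous_fst.continuousAt
  have hG := hcont.eventually hc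
  have hD : HasFDerivAt (fun e : C3 => ((e.1 + c, AL g.m e.2 + g.l) : C3))
      ((ContinuousLinearMap.fst ℂ ℂ (ℂ × ℂ)).prod
        ((AL g.m).comp (ContinuousLinearMap.snd ℂ ℂ (ℂ × ℂ)))) (chartX x.1 x.1, x.2) :=
    (hasFDerivAt_fst.add_const c).prodMk
      (((AL g.m).hasFDerivAt.comp _ hasFDerivAt_snd).add_const g.l)
  rw [mfderiv_N_eq ((contMDiff_smul_G g x).mdifferentiableAt (by simp)) (D := _) (G' := _) ?_ hD]
  · simp [AL_apply]
  · filter_upwards [hG] with e he
    apply Prod.ext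
    · exact he
    · change Apow g.m e.2 + g.l = AL g.m e.2 + g.l
      rw [AL_apply]

theorem mfderiv_FN (m : ℤ) (x : N) (ξ : C3) :
    (mfderiv I3 I3 (FN m) x ξ : C3) = (ξ.1, Apow m ξ.2) := by
  have hD : HasFDerivAt (fun e : C3 => ((e.1, AL m e.2) : C3))
      ((ContinuousLinearMap.fst ℂ ℂ (ℂ × ℂ)).prod
        ((AL m).comp (ContinuousLinearMap.snd ℂ ℂ (ℂ × ℂ)))) (chartX x.1 x.1, x.2) :=
    hasFDerivAt_fst.prodMk ((AL m).hasFDerivAt.comp _ hasFDerivAt_snd)
  rw [mfderiv_N_eq ((contMDiff_FN m x).mdifferentiableAt (by simp)) (D := _) (G' := _) ?_ hD]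
  · simp [AL_apply]
  · have h1 : chartX x.1 x.1 ∈ (chartX x.1).target :=
      (chartX x.1).map_source (mem_chartX_source _)
    have hcont : Tendsto (fun e : C3 => e.1) (𝓝 ((chartX x.1 x.1, x.2) : C3))
      (𝓝 (chartX x.1 x.1)) := continuous_fst.continuousAt
    filter_upwards [hcont.eventually ((chartX x.1).open_target.mem_nhds h1)] with e he
    apply Prod.ext
    · exact (chartX x.1).right_inv he
    · change Apow m e.2 = AL m e.2
      rw [AL_apply]

/-- derivative of a vector valued function on `N` -/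
theorem mfderiv_NW_eq {W : Type*} [NormedAddCommGroup W] [NormedSpace ℂ W] {F : N → W} {x : N}
    (hF : MDifferentiableAt I3 𝓘(ℂ, W) F x)
    {D : C3 →L[ℂ] W} {G' : C3 → W}
    (hG : (fun e : C3 => F ((chartX x.1).symm e.1, e.2)) =ᶠ[𝓝 ((chartX x.1 x.1, x.2) : C3)] G')
    (hD : HasFDerivAt G' D (chartX x.1 x.1, x.2)) (ξ : C3) :
    (mfderiv I3 𝓘(ℂ, W) F x ξ : W) = D ξ := by
  rw [mfderiv, if_pos hF, writtenInExtChartAt]
  simp only [extChartAt_coe, extChartAt_coe_symm, modelWithCornersSelf_coe,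
    modelWithCornersSelf_coe_symm, Function.id_comp, Function.comp_id, range_id,
    fderivWithin_univ, chartAt_N, chartAt_N_symm, chartAt_self_eq, OpenPartialHomeomorph.refl_apply]
  have h1 : (F ∘ fun e : C3 => (((chartX x.1).symm e.1, e.2) : N)) =ᶠ[𝓝 ((chartX x.1 x.1, x.2) :
      C3)] G' := hG
  rw [← hD.fderiv, ← h1.fderiv_eq]
  rfl

theorem contMDiff_fstN : ContMDiff I3 𝓘(ℂ) ω (fun x : N => (x.1 : X)) := by
  have h : ContMDiff (𝓘(ℂ, ℂ).prod 𝓘(ℂ, ℂ × ℂ)) 𝓘(ℂ) ω (fun x : X × (ℂ × ℂ) => x.1) :=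
    contMDiff_fst
  rw [← modelWithCornersSelf_prod] at h
  exact h

theorem contMDiff_sndN : ContMDiff I3 𝓘(ℂ, ℂ × ℂ) ω (fun x : N => (x.2 : ℂ × ℂ)) := by
  have h : ContMDiff (𝓘(ℂ, ℂ).prod 𝓘(ℂ, ℂ × ℂ)) 𝓘(ℂ, ℂ × ℂ) ω (fun x : X × (ℂ × ℂ) => x.2) :=
    contMDiff_snd
  rw [← modelWithCornersSelf_prod] at h
  exact h

/-- the function `z` on `N` -/
def zN (x : N) : ℂ := X.z x.1

theorem contMDiff_zN : ContMDiff I3 𝓘(ℂ) ω zN := contMDiff_z.comp contMDiff_fstN

theorem mfderiv_sndN (x : N) (ξ : C3) :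
    (mfderiv I3 𝓘(ℂ, ℂ × ℂ) (fun x : N => (x.2 : ℂ × ℂ)) x ξ : ℂ × ℂ) = ξ.2 := by
  rw [mfderiv_NW_eq ((contMDiff_sndN x).mdifferentiableAt (by simp))
    (D := ContinuousLinearMap.snd ℂ ℂ (ℂ × ℂ)) (G' := fun e => e.2)
    (Eventually.of_forall fun e => rfl) hasFDerivAt_snd]
  rfl

theorem mfderiv_zN {x : N} (hx : X.w x.1 ≠ 0) (ξ : C3) :
    (mfderiv I3 𝓘(ℂ) zN x ξ : ℂ) = ξ.1 := by
  rw [mfderiv_NW_eq ((contMDiff_zN x).mdifferentiableAt (by simp))
    (D := ContinuousLinearMap.fst ℂ ℂ (ℂ × ℂ)) (G' := fun e => e.1) ?_ hasFDerivAt_fst]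
  · rfl
  · exact Eventually.of_forall fun e => z_chart_ne hx e.1

theorem mfderiv_zN_zero {x : N} (hx : X.w x.1 = 0) (ξ : C3) :
    (mfderiv I3 𝓘(ℂ) zN x ξ : ℂ) = 0 := by
  have h1 : mfderiv I3 𝓘(ℂ) zN x =
      (mfderiv 𝓘(ℂ) 𝓘(ℂ) X.z x.1).comp (mfderiv I3 𝓘(ℂ) (fun x : N => (x.1 : X)) x) :=
    mfderiv_comp x ((contMDiff_z x.1).mdifferentiableAt (by simp))
      ((contMDiff_fstN x).mdifferentiableAt (by simp))
  rw [h1, mfderiv_z_eq_zero hx]
  rfl

/-- the branch coordinate at `p` as a function on `N` -/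
def uN (p : X) (x : N) : ℂ := chartX p x.1

theorem contMDiffOn_uN (p : X) : ContMDiffOn I3 𝓘(ℂ) ω (uN p) {x : N | x.1 ∈ (chartX p).source} :=
  (contMDiffOn_chart (I := 𝓘(ℂ)) (x := p) (n := ω)).comp contMDiff_fstN.contMDiffOn
    (fun _ hx => hx)

theorem isOpen_sourceN (p : X) : IsOpen {x : N | x.1 ∈ (chartX p).source} :=
  (chartX p).open_source.preimage continuous_fst

theorem mfderiv_uN_self (x : N) (ξ : C3) :
    (mfderiv I3 𝓘(ℂ) (uN x.1) x ξ : ℂ) = ξ.1 := by
  have hx : x ∈ {y : N | y.1 ∈ (chartX x.1).source} := mem_chartX_source _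
  have hd : MDifferentiableAt I3 𝓘(ℂ) (uN x.1) x :=
    ((contMDiffOn_uN x.1).contMDiffAt ((isOpen_sourceN x.1).mem_nhds hx)).mdifferentiableAt
      (by simp)
  rw [mfderiv_NW_eq hd (D := ContinuousLinearMap.fst ℂ ℂ (ℂ × ℂ)) (G' := fun e => e.1) ?_
    hasFDerivAt_fst]
  · rfl
  · have h1 : chartX x.1 x.1 ∈ (chartX x.1).target :=
      (chartX x.1).map_source (mem_chartX_source _)
    have hcont : Tendsto (fun e : C3 => e.1) (𝓝 ((chartX x.1 x.1, x.2) : C3))
      (𝓝 (chartX x.1 x.1)) := continuous_fst.continuousAt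
    filter_upwards [hcont.eventually ((chartX x.1).open_target.mem_nhds h1)] with e he
    exact (chartX x.1).right_inv he

/-! ## The norms on `N` -/

/-- the conformal factor -/
def cc (p : X) : ℂ := by
  classical
  exact if p.w = 0 then 1 else 1 / (2 * p.w)

theorem cc_zero {p : X} (hp : p.w = 0) : cc p = 1 := by unfold cc; rw [if_pos hp]

theorem cc_ne {p : X} (hp : p.w ≠ 0) : cc p = 1 / (2 * p.w) := by unfold cc; rw [if_neg hp]

theorem cc_ne_zero (p : X) : cc p ≠ 0 := by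
  by_cases hp : p.w = 0
  · rw [cc_zero hp]; exact one_ne_zero
  · rw [cc_ne hp]
    exact one_div_ne_zero (mul_ne_zero two_ne_zero hp)

theorem cc_act (m n : ℤ) (p : X) : cc (act m n p) = cc p := rfl

/-- `μ^t` for real `t` -/
def mup (t : ℝ) : ℝ := mu ^ t

theorem mup_pos (t : ℝ) : 0 < mup t := Real.rpow_pos_of_pos mu_pos t

theorem continuous_mup : Continuous mup :=
  Real.continuous_const_rpow mu_pos.ne'

theorem mup_add_int (t : ℝ) (m : ℤ) : mup (t + m) = mup t * mu ^ m := by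
  unfold mup
  rw [Real.rpow_add mu_pos, Real.rpow_intCast]

/-- derivative of `z` along a tangent vector -/
def dzN (q : TangentBundle I3 N) : ℂ := (mfderiv I3 𝓘(ℂ) zN q.1 q.2 : ℂ)

/-- derivative of the branch coordinate along a tangent vector -/
def duN (p : X) (q : TangentBundle I3 N) : ℂ := (mfderiv I3 𝓘(ℂ) (uN p) q.1 q.2 : ℂ)

/-- derivative of the linear coordinates along a tangent vector -/
def dvN (q : TangentBundle I3 N) : ℂ × ℂ :=
  (mfderiv I3 𝓘(ℂ, ℂ × ℂ) (fun x : N => (x.2 : ℂ × ℂ)) q.1 q.2 : ℂ × ℂ)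

theorem continuous_proj : Continuous (fun q : TangentBundle I3 N => q.1) :=
  FiberBundle.continuous_proj C3 (TangentSpace I3)

theorem continuous_dzN : Continuous dzN := by
  have := continuousOn_mfderiv (I := I3) (A := N) (F := zN) isOpen_univ
    (contMDiff_zN.of_le le_top).contMDiffOn
  rw [preimage_univ, ← continuousOn_univ.symm.eq] at this
  exact this

theorem continuous_dvN : Continuous dvN := by
  have := continuousOn_mfderiv (I := I3) (A := N) (F := fun x : N => (x.2 : ℂ × ℂ)) isOpen_univ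
    (contMDiff_sndN.of_le le_top).contMDiffOn
  rw [preimage_univ, ← continuousOn_univ.symm.eq] at this
  exact this

theorem continuousOn_duN (p : X) :
    ContinuousOn (duN p) {q : TangentBundle I3 N | q.1.1 ∈ (chartX p).source} :=
  continuousOn_mfderiv (I := I3) (A := N) (F := uN p) (isOpen_sourceN p)
    ((contMDiffOn_uN p).of_le le_top)

theorem dvN_eq (q : TangentBundle I3 N) : dvN q = (q.2 : C3).2 := mfderiv_sndN q.1 q.2

theorem dzN_eq {q : TangentBundle I3 N} (hq : X.w q.1.1 ≠ 0) : dzN q = (q.2 : C3).1 :=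
  mfderiv_zN hq q.2

theorem duN_self (q : TangentBundle I3 N) : duN q.1.1 q = (q.2 : C3).1 :=
  mfderiv_uN_self q.1 q.2

/-- norm of the central component -/
def NcN (q : TangentBundle I3 N) : ℝ := ‖cc q.1.1 * (q.2 : C3).1‖

/-- norm of the stable component -/
def NsN (q : TangentBundle I3 N) : ℝ := mup (X.z q.1.1).re * ‖(q.2 : C3).2.2‖

/-- norm of the unstable component -/
def NuN (q : TangentBundle I3 N) : ℝ := mup (-(X.z q.1.1).re) * ‖(q.2 : C3).2.1‖

theorem NcN_of_ne {q : TangentBundle I3 N} (hq : X.w q.1.1 ≠ 0) :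
    NcN q = ‖dzN q‖ / (2 * ‖X.w q.1.1‖) := by
  unfold NcN
  rw [dzN_eq hq, cc_ne hq, norm_mul, norm_div, norm_mul, norm_one, Complex.norm_two]
  ring

theorem NcN_of_box {p : X} (hp : p.w = 0) {q : TangentBundle I3 N}
    (hq : q.1.1 ∈ (chartX p).source) :
    NcN q = ‖duN p q‖ := by
  obtain ⟨x, ξ⟩ := q
  change x.1 ∈ (chartX p).source at hq
  by_cases hx : X.w x.1 = 0
  · have hq' : X.z x.1 ∈ box p.z := by
      rw [chartX_of_eq hp] at hq; exact hq
    have : p = x.1 := eq_of_box hp hx hq' (self_mem_box _)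
    subst this
    rw [duN_self ⟨x, ξ⟩]
    change ‖cc x.1 * (ξ : C3).1‖ = _
    rw [cc_zero hx, one_mul]
  · rw [NcN_of_ne hx]
    have hd : MDifferentiableAt I3 𝓘(ℂ) (uN p) x :=
      ((contMDiffOn_uN p).contMDiffAt ((isOpen_sourceN p).mem_nhds hq)).mdifferentiableAt
        (by simp)
    have hev : zN =ᶠ[𝓝 x] (fun u : ℂ => p.z + eps p.z * u ^ 2) ∘ (uN p) := by
      filter_upwards [(isOpen_sourceN p).mem_nhds hq] with y hy
      have hy' : X.z y.1 ∈ box p.z := by
        have : y.1 ∈ (chartX p).source := hy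
        rw [chartX_of_eq hp] at this; exact this
      have h2 : uN p y = cj (flag p.z) (X.w y.1) := by
        unfold uN; rw [chartX_of_eq hp]; rfl
      rw [Function.comp_apply, h2]
      exact (z_eq_of_box hp hy').symm
    have hDer : HasFDerivAt (fun u : ℂ => p.z + eps p.z * u ^ 2)
        (ContinuousLinearMap.toSpanSingleton ℂ (eps p.z * (2 * uN p x)) : ℂ →L[ℂ] ℂ) (uN p x) := by
      have h3 : HasDerivAt (fun u : ℂ => p.z + eps p.z * u ^ 2) (eps p.z * (2 * uN p x))
          (uN p x) := by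
        have := ((hasDerivAt_pow 2 (uN p x)).const_mul (eps p.z)).const_add p.z
        simpa using this
      exact h3.hasFDerivAt
    have h4 : dzN ⟨x, ξ⟩ = duN p ⟨x, ξ⟩ * (eps p.z * (2 * uN p x)) := by
      unfold dzN duN
      change (mfderiv I3 𝓘(ℂ) zN x ξ : ℂ) = _
      rw [hev.mfderiv_eq, mfderiv_comp x hDer.differentiableAt.mdifferentiableAt hd]
      rw [mfderiv_eq_fderiv, hDer.fderiv]
      rfl
    have h5 : ‖uN p x‖ = ‖X.w x.1‖ := by
      have h2 : uN p x = cj (flag p.z) (X.w x.1) := by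
        unfold uN; rw [chartX_of_eq hp]; rfl
      rw [h2]
      unfold cj
      split_ifs
      · exact RCLike.norm_conj _
      · rfl
    have h6 : ‖eps p.z‖ = 1 := by
      rcases (local_form (X.gg_z hp)).1 with h | h <;> rw [h] <;> simp
    rw [h4, norm_mul, norm_mul, norm_mul, h5, h6, Complex.norm_two]
    have h7 : ‖X.w x.1‖ ≠ 0 := norm_ne_zero_iff.2 hx
    change ‖duN p ⟨x, ξ⟩‖ * (1 * (2 * ‖X.w x.1‖)) / (2 * ‖X.w x.1‖) = ‖duN p ⟨x, ξ⟩‖
    field_simp

theorem continuous_NcN : Continuous NcN := by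
  rw [continuous_iff_continuousAt]
  intro q
  by_cases hq : X.w q.1.1 = 0
  · have hopen : IsOpen {q' : TangentBundle I3 N | q'.1.1 ∈ (chartX q.1.1).source} :=
      (isOpen_sourceN q.1.1).preimage continuous_proj
    have h : ContinuousOn NcN {q' : TangentBundle I3 N | q'.1.1 ∈ (chartX q.1.1).source} :=
      (continuousOn_duN q.1.1).norm.congr fun q' hq' => NcN_of_box hq hq'
    exact h.continuousAt (hopen.mem_nhds (mem_chartX_source _))
  · have hc : Continuous fun q' : TangentBundle I3 N => X.w q'.1.1 :=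
      continuous_w.comp (continuous_fst.comp continuous_proj)
    have hopen : IsOpen {q' : TangentBundle I3 N | X.w q'.1.1 ≠ 0} :=
      isOpen_ne_fun hc continuous_const
    have h : ContinuousOn NcN {q' : TangentBundle I3 N | X.w q'.1.1 ≠ 0} := by
      refine ContinuousOn.congr (f := fun q' => ‖dzN q'‖ / (2 * ‖X.w q'.1.1‖)) ?_
        fun q' hq' => NcN_of_ne hq'
      refine continuous_dzN.norm.continuousOn.div (continuous_const.mul hc.norm).continuousOn ?_
      intro q' hq'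
      exact mul_ne_zero two_ne_zero (norm_ne_zero_iff.2 hq')
    exact h.continuousAt (hopen.mem_nhds hq)

theorem continuous_reN : Continuous fun q : TangentBundle I3 N => (X.z q.1.1).re :=
  Complex.continuous_re.comp (continuous_z.comp (continuous_fst.comp continuous_proj))

theorem continuous_NsN : Continuous NsN := by
  have h : NsN = fun q => mup (X.z q.1.1).re * ‖(dvN q).2‖ := by
    funext q; rw [dvN_eq]; rfl
  rw [h]
  exact (continuous_mup.comp continuous_reN).mul (continuous_snd.comp continuous_dvN).norm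

theorem continuous_NuN : Continuous NuN := by
  have h : NuN = fun q => mup (-(X.z q.1.1).re) * ‖(dvN q).1‖ := by
    funext q; rw [dvN_eq]; rfl
  rw [h]
  exact (continuous_mup.comp continuous_reN.neg).mul (continuous_fst.comp continuous_dvN).norm

end Pool.Agent.Helper77.PH
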