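import Pool.Agent.Helper77.PH.Frame

/-!
# The frame of the threefold `M`, and its behaviour under `FM`
-/

open Complex Set Filter Topology
open scoped ContDiff Manifold ComplexConjugate
noncomputable section

namespace Pool.Agent.Helper77.PH

open HolPH (C3 C2 I3)

theorem mup_ne (t : ℝ) : ((mup t : ℝ) : ℂ) ≠ 0 := by exact_mod_cast (mup_pos t).ne'

/-- the frame on `N` -/
def LN (x : N) : C3 ≃ₗ[ℂ] C3 where
  toFun ξ := (cc x.1 * ξ.1, (mup (X.z x.1).re : ℂ) * ξ.2.2, (mup (-(X.z x.1).re) : ℂ) * ξ.2.1)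
  map_add' a b := by
    simp only [Prod.fst_add, Prod.snd_add, Prod.mk_add_mk, mul_add]
  map_smul' c a := by
    simp only [Prod.smul_fst, Prod.smul_snd, Prod.smul_mk, smul_eq_mul, RingHom.id_apply]
    ext <;> simp only <;> ring
  invFun v := ((cc x.1)⁻¹ * v.1, ((mup (-(X.z x.1).re) : ℂ))⁻¹ * v.2.2,
    ((mup (X.z x.1).re : ℂ))⁻¹ * v.2.1)
  left_inv ξ := by
    have h1 := cc_ne_zero x.1
    have h2 := mup_ne (X.z x.1).re
    have h3 := mup_ne (-(X.z x.1).re)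
    ext <;> simp only <;> field_simp
  right_inv v := by
    have h1 := cc_ne_zero x.1
    have h2 := mup_ne (X.z x.1).re
    have h3 := mup_ne (-(X.z x.1).re)
    ext <;> simp only <;> field_simp

theorem LN_one (x : N) (ξ : C3) : ‖(LN x ξ).1‖ = NcN ⟨x, ξ⟩ := rfl

theorem LN_two (x : N) (ξ : C3) : ‖(LN x ξ).2.1‖ = NsN ⟨x, ξ⟩ := by
  change ‖(mup (X.z x.1).re : ℂ) * ξ.2.2‖ = mup (X.z x.1).re * ‖ξ.2.2‖
  rw [norm_mul, norm_real, Real.norm_of_nonneg (mup_pos _).le]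

theorem LN_three (x : N) (ξ : C3) : ‖(LN x ξ).2.2‖ = NuN ⟨x, ξ⟩ := by
  change ‖(mup (-(X.z x.1).re) : ℂ) * ξ.2.1‖ = mup (-(X.z x.1).re) * ‖ξ.2.1‖
  rw [norm_mul, norm_real, Real.norm_of_nonneg (mup_pos _).le]

/-! ### Invariance -/

theorem NcN_smul (g : G) (x : N) (ξ : C3) :
    NcN ⟨g • x, mfderiv I3 I3 (fun y : N => g • y) x ξ⟩ = NcN ⟨x, ξ⟩ := by
  change ‖cc (g • x).1 * (mfderiv I3 I3 (fun y : N => g • y) x ξ : C3).1‖ = ‖cc x.1 * ξ.1‖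
  rw [mfderiv_smul_G, smul_fst, cc_act]

theorem norm_mu_zpow (m : ℤ) : ‖(mu : ℂ) ^ m‖ = mu ^ m := by
  rw [norm_zpow, norm_real, Real.norm_of_nonneg mu_pos.le]

theorem NsN_smul (g : G) (x : N) (ξ : C3) :
    NsN ⟨g • x, mfderiv I3 I3 (fun y : N => g • y) x ξ⟩ = NsN ⟨x, ξ⟩ := by
  change mup (X.z (g • x).1).re * ‖(mfderiv I3 I3 (fun y : N => g • y) x ξ : C3).2.2‖ =
    mup (X.z x.1).re * ‖ξ.2.2‖
  rw [mfderiv_smul_G, smul_fst, act_z]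
  have h1 : (X.z x.1 + (g.m + g.n * I)).re = (X.z x.1).re + g.m := by simp
  rw [h1, mup_add_int]
  change mup (X.z x.1).re * mu ^ g.m * ‖(mu : ℂ) ^ (-g.m) * ξ.2.2‖ = _
  rw [norm_mul, norm_mu_zpow, zpow_neg]
  have h2 : mu ^ g.m ≠ 0 := (zpow_pos mu_pos _).ne'
  field_simp

theorem NuN_smul (g : G) (x : N) (ξ : C3) :
    NuN ⟨g • x, mfderiv I3 I3 (fun y : N => g • y) x ξ⟩ = NuN ⟨x, ξ⟩ := by
  change mup (-(X.z (g • x).1).re) * ‖(mfderiv I3 I3 (fun y : N => g • y) x ξ : C3).2.1‖ =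
    mup (-(X.z x.1).re) * ‖ξ.2.1‖
  rw [mfderiv_smul_G, smul_fst, act_z]
  have h1 : -(X.z x.1 + (g.m + g.n * I)).re = -(X.z x.1).re + ((-g.m : ℤ) : ℝ) := by
    simp; ring
  rw [h1, mup_add_int]
  change mup (-(X.z x.1).re) * mu ^ (-g.m) * ‖(mu : ℂ) ^ g.m * ξ.2.1‖ = _
  rw [norm_mul, norm_mu_zpow, zpow_neg]
  have h2 : mu ^ g.m ≠ 0 := (zpow_pos mu_pos _).ne'
  field_simp

theorem NcN_FN (k : ℤ) (x : N) (ξ : C3) :
    NcN ⟨FN k x, mfderiv I3 I3 (FN k) x ξ⟩ = NcN ⟨x, ξ⟩ := by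
  change ‖cc (FN k x).1 * (mfderiv I3 I3 (FN k) x ξ : C3).1‖ = ‖cc x.1 * ξ.1‖
  rw [mfderiv_FN]
  rfl

theorem NsN_FN (k : ℤ) (x : N) (ξ : C3) :
    NsN ⟨FN k x, mfderiv I3 I3 (FN k) x ξ⟩ = mu ^ (-k) * NsN ⟨x, ξ⟩ := by
  change mup (X.z x.1).re * ‖(mfderiv I3 I3 (FN k) x ξ : C3).2.2‖ =
    mu ^ (-k) * (mup (X.z x.1).re * ‖ξ.2.2‖)
  rw [mfderiv_FN]
  change mup (X.z x.1).re * ‖(mu : ℂ) ^ (-k) * ξ.2.2‖ = _
  rw [norm_mul, norm_mu_zpow]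
  ring

theorem NuN_FN (k : ℤ) (x : N) (ξ : C3) :
    NuN ⟨FN k x, mfderiv I3 I3 (FN k) x ξ⟩ = mu ^ k * NuN ⟨x, ξ⟩ := by
  change mup (-(X.z x.1).re) * ‖(mfderiv I3 I3 (FN k) x ξ : C3).2.1‖ =
    mu ^ k * (mup (-(X.z x.1).re) * ‖ξ.2.1‖)
  rw [mfderiv_FN]
  change mup (-(X.z x.1).re) * ‖(mu : ℂ) ^ k * ξ.2.1‖ = _
  rw [norm_mul, norm_mu_zpow]
  ring

/-! ### Descent to `M` -/

theorem mdiff_pM (x : N) : MDifferentiableAt I3 I3 pM x :=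
  (isLocalDiffeomorph_pM x).contMDiffAt.mdifferentiableAt (by simp)

/-- the derivative of the projection as an equivalence -/
def dpM (x : N) : C3 ≃L[ℂ] C3 :=
  (isLocalDiffeomorph_pM x).mfderivToContinuousLinearEquiv (by simp)

theorem dpM_apply (x : N) (ξ : C3) : dpM x ξ = mfderiv I3 I3 pM x ξ := rfl

/-- a representative in `N` -/
def rep (y : M) : N := (surjective_pM y).choose

theorem pM_rep (y : M) : pM (rep y) = y := (surjective_pM y).choose_spec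

/-- the frame read at the representative `x` -/
def LC (x : N) : C3 ≃ₗ[ℂ] C3 := (dpM x).symm.toLinearEquiv.trans (LN x)

theorem LC_mfderiv_pM (x : N) (ξ : C3) : LC x (mfderiv I3 I3 pM x ξ : C3) = LN x ξ := by
  change LN x ((dpM x).symm (dpM x ξ)) = LN x ξ
  rw [ContinuousLinearEquiv.symm_apply_apply]

/-- the frame on `M` -/
def LM (y : M) : TangentSpace I3 y ≃ₗ[ℂ] C3 := LC (rep y)

/-- the central norm on `M` -/
def NcM (q : TangentBundle I3 M) : ℝ := ‖(LM q.1 q.2).1‖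

/-- the stable norm on `M` -/
def NsM (q : TangentBundle I3 M) : ℝ := ‖(LM q.1 q.2).2.1‖

/-- the unstable norm on `M` -/
def NuM (q : TangentBundle I3 M) : ℝ := ‖(LM q.1 q.2).2.2‖

theorem LC_eq (x : N) (ξ : C3) (g : G) :
    LC (g • x) (mfderiv I3 I3 pM x ξ : C3) =
      LN (g • x) (mfderiv I3 I3 (fun y : N => g • y) x ξ : C3) := by
  have h1 : (pM : N → M) = pM ∘ (fun y : N => g • y) := by
    funext y; exact (pM_smul g y).symm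
  have h2 : (mfderiv I3 I3 pM x ξ : C3) =
      mfderiv I3 I3 pM (g • x) (mfderiv I3 I3 (fun y : N => g • y) x ξ) := by
    have h3 : mfderiv I3 I3 (pM ∘ (fun y : N => g • y)) x =
        (mfderiv I3 I3 pM (g • x)).comp (mfderiv I3 I3 (fun y : N => g • y) x) :=
      mfderiv_comp x (mdiff_pM (g • x)) ((contMDiff_smul_G g x).mdifferentiableAt (by simp))
    have h4 : (mfderiv I3 I3 pM x ξ : C3) =
      (mfderiv I3 I3 (pM ∘ (fun y : N => g • y)) x ξ : C3) := by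
      rw [← h1]
    rw [h4, h3]
    rfl
  rw [h2, LC_mfderiv_pM]

theorem NM_pM (x : N) (ξ : C3) :
    NcM ⟨pM x, mfderiv I3 I3 pM x ξ⟩ = NcN ⟨x, ξ⟩ ∧
    NsM ⟨pM x, mfderiv I3 I3 pM x ξ⟩ = NsN ⟨x, ξ⟩ ∧
    NuM ⟨pM x, mfderiv I3 I3 pM x ξ⟩ = NuN ⟨x, ξ⟩ := by
  obtain ⟨g, hg⟩ := pM_eq_iff.1 (pM_rep (pM x)).symm
  have h : (LM (pM x) (mfderiv I3 I3 pM x ξ) : C3) =
      LN (g • x) (mfderiv I3 I3 (fun y : N => g • y) x ξ : C3) := by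
    change LC (rep (pM x)) (mfderiv I3 I3 pM x ξ : C3) = _
    rw [← hg, LC_eq]
  refine ⟨?_, ?_, ?_⟩
  · unfold NcM
    rw [h, LN_one, NcN_smul]
  · unfold NsM
    rw [h, LN_two, NsN_smul]
  · unfold NuM
    rw [h, LN_three, NuN_smul]

theorem continuous_NcM : Continuous NcM := by
  apply continuous_of_comp_tangentMap le_top isLocalDiffeomorph_pM surjective_pM
  have h : (fun q : TangentBundle I3 N => NcM ⟨pM q.1, mfderiv I3 I3 pM q.1 q.2⟩) = NcN := by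
    funext q; exact (NM_pM q.1 q.2).1
  rw [h]; exact continuous_NcN

theorem continuous_NsM : Continuous NsM := by
  apply continuous_of_comp_tangentMap le_top isLocalDiffeomorph_pM surjective_pM
  have h : (fun q : TangentBundle I3 N => NsM ⟨pM q.1, mfderiv I3 I3 pM q.1 q.2⟩) = NsN := by
    funext q; exact (NM_pM q.1 q.2).2.1
  rw [h]; exact continuous_NsN

theorem continuous_NuM : Continuous NuM := by
  apply continuous_of_comp_tangentMap le_top isLocalDiffeomorph_pM surjective_pM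
  have h : (fun q : TangentBundle I3 N => NuM ⟨pM q.1, mfderiv I3 I3 pM q.1 q.2⟩) = NuN := by
    funext q; exact (NM_pM q.1 q.2).2.2
  rw [h]; exact continuous_NuN

/-- every tangent vector of `M` comes from `N` -/
theorem exists_lift (q : TangentBundle I3 M) :
    ∃ (x : N) (ξ : C3), q = ⟨pM x, mfderiv I3 I3 pM x ξ⟩ := by
  obtain ⟨y, v⟩ := q
  obtain ⟨x, rfl⟩ := surjective_pM y
  refine ⟨x, (dpM x).symm v, ?_⟩
  have : (dpM x) ((dpM x).symm v) = v := (dpM x).apply_symm_apply v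
  rw [← dpM_apply, this]

theorem mdiff_FM (k : ℤ) (y : M) : MDifferentiableAt I3 I3 (FM k) y :=
  (contMDiff_FM k y).mdifferentiableAt (by simp)

theorem mfderiv_FM_pM (k : ℤ) (x : N) (ξ : C3) :
    (mfderiv I3 I3 (FM k) (pM x) (mfderiv I3 I3 pM x ξ) : C3) =
      mfderiv I3 I3 pM (FN k x) (mfderiv I3 I3 (FN k) x ξ) := by
  have h1 : mfderiv I3 I3 (FM k ∘ pM) x = (mfderiv I3 I3 (FM k) (pM x)).comp (mfderiv I3 I3 pM x) :=
    mfderiv_comp x (mdiff_FM k (pM x)) (mdiff_pM x)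
  have h2 : mfderiv I3 I3 (pM ∘ FN k) x = (mfderiv I3 I3 pM (FN k x)).comp (mfderiv I3 I3 (FN k) x) :=
    mfderiv_comp x (mdiff_pM (FN k x)) ((contMDiff_FN k x).mdifferentiableAt (by simp))
  have h3 : (FM k ∘ pM : N → M) = pM ∘ FN k := by
    funext y; exact FM_pM k y
  have h4 : (mfderiv I3 I3 (FM k ∘ pM) x ξ : C3) = (mfderiv I3 I3 (pM ∘ FN k) x ξ : C3) := by
    rw [h3]
  rw [h1, h2] at h4
  exact h4

theorem NM_FM_pM (k : ℤ) (x : N) (ξ : C3) :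
    NcM ⟨FM k (pM x), mfderiv I3 I3 (FM k) (pM x) (mfderiv I3 I3 pM x ξ)⟩ =
      NcM ⟨pM x, mfderiv I3 I3 pM x ξ⟩ ∧
    NsM ⟨FM k (pM x), mfderiv I3 I3 (FM k) (pM x) (mfderiv I3 I3 pM x ξ)⟩ =
      mu ^ (-k) * NsM ⟨pM x, mfderiv I3 I3 pM x ξ⟩ ∧
    NuM ⟨FM k (pM x), mfderiv I3 I3 (FM k) (pM x) (mfderiv I3 I3 pM x ξ)⟩ =
      mu ^ k * NuM ⟨pM x, mfderiv I3 I3 pM x ξ⟩ := by
  have h1 : (⟨FM k (pM x), mfderiv I3 I3 (FM k) (pM x) (mfderiv I3 I3 pM x ξ)⟩ :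
      TangentBundle I3 M) = ⟨pM (FN k x), mfderiv I3 I3 pM (FN k x) (mfderiv I3 I3 (FN k) x ξ)⟩ := by
    rw [mfderiv_FM_pM k x ξ]
    rfl
  obtain ⟨a1, a2, a3⟩ := NM_pM x ξ
  obtain ⟨b1, b2, b3⟩ := NM_pM (FN k x) (mfderiv I3 I3 (FN k) x ξ)
  rw [h1, a1, a2, a3]
  exact ⟨b1.trans (NcN_FN k x ξ), b2.trans (NsN_FN k x ξ), b3.trans (NuN_FN k x ξ)⟩

theorem NM_FM (k : ℤ) (q : TangentBundle I3 M) :
    NcM ⟨FM k q.1, mfderiv I3 I3 (FM k) q.1 q.2⟩ = NcM q ∧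
    NsM ⟨FM k q.1, mfderiv I3 I3 (FM k) q.1 q.2⟩ = mu ^ (-k) * NsM q ∧
    NuM ⟨FM k q.1, mfderiv I3 I3 (FM k) q.1 q.2⟩ = mu ^ k * NuM q := by
  obtain ⟨x, ξ, h⟩ := exists_lift q
  rw [h]
  exact NM_FM_pM k x ξ

end Pool.Agent.Helper77.PH
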