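import Pool.Agent.Helper77.PH.Threefold

/-!
# `G` acts freely and properly discontinuously; the compact threefold `M`
-/

open Complex Set Filter Topology
open scoped ContDiff Manifold ComplexConjugate
noncomputable section

namespace Pool.Agent.Helper77.PH

instance : IsCancelSMul G N where
  left_cancel' g x y h := smul_left_cancel g h
  right_cancel' g h x hx := by
    have h1 : (g • x).1 = (h • x).1 := congrArg Prod.fst hx
    have h2 : (g • x).2 = (h • x).2 := congrArg Prod.snd hx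
    rw [smul_fst, smul_fst] at h1
    rw [smul_snd, smul_snd] at h2
    have h3 := congrArg X.z h1
    rw [act_z, act_z] at h3
    have h4 := congrArg Complex.re (add_left_cancel h3)
    have h5 := congrArg Complex.im (add_left_cancel h3)
    simp at h4 h5
    have hm : g.m = h.m := by exact_mod_cast h4
    have hn : g.n = h.n := by exact_mod_cast h5
    rw [hm] at h2
    exact G.ext hm hn (add_left_cancel h2)

theorem finite_Lat_ball (C : ℝ) : {l : ℂ × ℂ | l ∈ Lat ∧ ‖l‖ ≤ C}.Finite := by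
  set B : ℤ := ⌈3 * C⌉ with hB
  have hfin : (Icc (-B) B ×ˢ Icc (-B) B ×ˢ Icc (-B) B ×ˢ Icc (-B) B :
      Set (ℤ × ℤ × ℤ × ℤ)).Finite :=
    (Set.finite_Icc _ _).prod ((Set.finite_Icc _ _).prod
      ((Set.finite_Icc _ _).prod (Set.finite_Icc _ _)))
  refine (hfin.image (fun t : ℤ × ℤ × ℤ × ℤ =>
    lat ((t.1 : ℂ) + t.2.1 * I) ((t.2.2.1 : ℂ) + t.2.2.2 * I))).subset ?_
  rintro _ ⟨⟨a, ⟨a1, a2, rfl⟩, b, ⟨b1, b2, rfl⟩, rfl⟩, hl⟩
  refine ⟨(a1, a2, b1, b2), ?_, rfl⟩
  set a : ℂ := a1 + a2 * I with ha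
  set b : ℂ := b1 + b2 * I with hb
  have hn1 : ‖phi * a + b‖ ≤ C := (norm_fst_le (lat a b)).trans hl
  have hn2 : ‖psi * a + b‖ ≤ C := (norm_snd_le (lat a b)).trans hl
  have h3 : (Real.sqrt 5 : ℂ) * a = (phi * a + b) - (psi * a + b) := by
    rw [← sub_phi_psi]; ring
  have h4 : Real.sqrt 5 * ‖a‖ ≤ 2 * C := by
    have : ‖(Real.sqrt 5 : ℂ) * a‖ = Real.sqrt 5 * ‖a‖ := by
      rw [norm_mul, norm_real, Real.norm_of_nonneg (Real.sqrt_nonneg _)]
    rw [← this, h3]
    exact (norm_sub_le _ _).trans (by linarith)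
  have hna : ‖a‖ ≤ C := by nlinarith [sqrt5_gt, norm_nonneg a]
  have hphi : ‖phi‖ ≤ 2 := by
    unfold phi
    rw [norm_real, Real.norm_of_nonneg Real.goldenRatio_pos.le]
    exact Real.goldenRatio_lt_two.le
  have hnb : ‖b‖ ≤ 3 * C := by
    have : b = (phi * a + b) - phi * a := by ring
    rw [this]
    refine (norm_sub_le _ _).trans ?_
    rw [norm_mul]
    nlinarith [norm_nonneg a, norm_nonneg phi]
  have hC : 0 ≤ C := (norm_nonneg a).trans hna
  have hBC : 3 * C ≤ B := Int.le_ceil _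
  have key : ∀ (x y : ℤ) (c : ℂ), c = x + y * I → ‖c‖ ≤ 3 * C → x ∈ Icc (-B) B ∧ y ∈ Icc (-B) B := by
    intro x y c hc hcn
    have e1 := (abs_re_le_norm c).trans (hcn.trans hBC)
    have e2 := (abs_im_le_norm c).trans (hcn.trans hBC)
    rw [hc] at e1 e2
    simp at e1 e2
    have f1 : |x| ≤ B := by exact_mod_cast e1
    have f2 : |y| ≤ B := by exact_mod_cast e2
    exact ⟨abs_le.1 f1, abs_le.1 f2⟩
  obtain ⟨k1, k2⟩ := key a1 a2 a ha (by linarith)
  obtain ⟨k3, k4⟩ := key b1 b2 b hb hnb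
  exact ⟨k1, k2, k3, k4⟩

instance : ProperlyDiscontinuousSMul G N where
  finite_disjoint_inter_image := by
    intro K L hK hL
    -- bounds
    have hcz : Continuous fun x : N => ‖x.1.z‖ :=
      continuous_norm.comp (continuous_z.comp continuous_fst)
    have hcv : Continuous fun x : N => ‖x.2‖ := continuous_norm.comp continuous_snd
    obtain ⟨R1, hR1⟩ := (hK.image hcz).bddAbove
    obtain ⟨R2, hR2⟩ := (hL.image hcz).bddAbove
    obtain ⟨S1, hS1⟩ := (hK.image hcv).bddAbove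
    obtain ⟨S2, hS2⟩ := (hL.image hcv).bddAbove
    set B : ℤ := ⌈R1 + R2⌉ with hB
    have hfin1 : (Icc (-B) B ×ˢ Icc (-B) B : Set (ℤ × ℤ)).Finite :=
      (Set.finite_Icc _ _).prod (Set.finite_Icc _ _)
    -- for each `m` the norm of `Apow m` is bounded
    set D : ℤ → ℝ := fun m => ‖(mu : ℂ) ^ m‖ + ‖(mu : ℂ) ^ (-m)‖ with hD
    have hDn : ∀ m (v : ℂ × ℂ), ‖Apow m v‖ ≤ D m * ‖v‖ := by
      intro m v
      rw [Prod.norm_def]
      apply max_le
      · change ‖(mu : ℂ) ^ m * v.1‖ ≤ _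
        rw [norm_mul]
        have := norm_fst_le v
        have h0 := norm_nonneg ((mu : ℂ) ^ (-m))
        have h1 := norm_nonneg ((mu : ℂ) ^ m)
        simp only [hD]
        nlinarith [norm_nonneg v]
      · change ‖(mu : ℂ) ^ (-m) * v.2‖ ≤ _
        rw [norm_mul]
        have := norm_snd_le v
        have h0 := norm_nonneg ((mu : ℂ) ^ (-m))
        have h1 := norm_nonneg ((mu : ℂ) ^ m)
        simp only [hD]
        nlinarith [norm_nonneg v]
    have hfin2 : (⋃ t ∈ (Icc (-B) B ×ˢ Icc (-B) B : Set (ℤ × ℤ)),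
        {g : G | g.m = t.1 ∧ g.n = t.2 ∧ ‖g.l‖ ≤ D t.1 * S1 + S2}).Finite := by
      apply hfin1.biUnion
      intro t _
      apply Set.Finite.of_finite_image (f := fun g : G => g.l)
      · refine (finite_Lat_ball (D t.1 * S1 + S2)).subset ?_
        rintro _ ⟨g, ⟨-, -, hg⟩, rfl⟩
        exact ⟨g.hl, hg⟩
      · rintro g ⟨h1, h2, -⟩ h ⟨h3, h4, -⟩ hgh
        exact G.ext (h1.trans h3.symm) (h2.trans h4.symm) hgh
    refine hfin2.subset ?_
    rintro g ⟨y, ⟨x, hx, rfl⟩, hy⟩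
    have hz1 : ‖x.1.z‖ ≤ R1 := hR1 ⟨x, hx, rfl⟩
    have hz2 : ‖(g • x).1.z‖ ≤ R2 := hR2 ⟨_, hy, rfl⟩
    have hv1 : ‖x.2‖ ≤ S1 := hS1 ⟨x, hx, rfl⟩
    have hv2 : ‖(g • x).2‖ ≤ S2 := hS2 ⟨_, hy, rfl⟩
    rw [smul_fst, act_z] at hz2
    rw [smul_snd] at hv2
    have hc : ‖((g.m : ℂ) + g.n * I)‖ ≤ R1 + R2 := by
      have : ((g.m : ℂ) + g.n * I) = (x.1.z + (g.m + g.n * I)) - x.1.z := by ring
      rw [this]
      exact (norm_sub_le _ _).trans (by linarith)
    have hBR : R1 + R2 ≤ B := Int.le_ceil _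
    have e1 := (abs_re_le_norm _).trans (hc.trans hBR)
    have e2 := (abs_im_le_norm _).trans (hc.trans hBR)
    simp at e1 e2
    have f1 : |g.m| ≤ B := by exact_mod_cast e1
    have f2 : |g.n| ≤ B := by exact_mod_cast e2
    rw [mem_iUnion₂]
    refine ⟨(g.m, g.n), ⟨abs_le.1 f1, abs_le.1 f2⟩, rfl, rfl, ?_⟩
    have : g.l = (Apow g.m x.2 + g.l) - Apow g.m x.2 := by ring
    rw [this]
    refine (norm_sub_le _ _).trans ?_
    have h3 := hDn g.m x.2
    have h4 : 0 ≤ D g.m := by positivity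
    simp only
    nlinarith

/-! ## The threefold -/

open MulAction

/-- The compact complex threefold. -/
def M : Type := orbitRel.Quotient G N

instance : TopologicalSpace M := inferInstanceAs (TopologicalSpace (orbitRel.Quotient G N))

instance : ChartedSpace (ℂ × ℂ × ℂ) M :=
  inferInstanceAs (ChartedSpace (ℂ × ℂ × ℂ) (orbitRel.Quotient G N))

instance : IsManifold 𝓘(ℂ, ℂ × ℂ × ℂ) ω M :=
  QuotMfd.quotient_isManifold (G := G) (N := N) 𝓘(ℂ, ℂ × ℂ × ℂ) ω contMDiff_smul_G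

/-- the projection -/
def pM (x : N) : M := Quotient.mk _ x

theorem isLocalDiffeomorph_pM :
    IsLocalDiffeomorph 𝓘(ℂ, ℂ × ℂ × ℂ) 𝓘(ℂ, ℂ × ℂ × ℂ) ω pM :=
  QuotMfd.quotient_isLocalDiffeomorph (G := G) (N := N) 𝓘(ℂ, ℂ × ℂ × ℂ) ω contMDiff_smul_G

theorem isCoveringMap_pM : IsCoveringMap pM :=
  (isQuotientCoveringMap_quotientMk_of_properlyDiscontinuousSMul (G := G) (E := N)).isCoveringMap

theorem continuous_pM : Continuous pM := isCoveringMap_pM.continuous

theorem surjective_pM : Function.Surjective pM := Quotient.mk_surjective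

theorem pM_smul (g : G) (x : N) : pM (g • x) = pM x := Quotient.sound ⟨g, rfl⟩

theorem pM_eq_iff {x y : N} : pM x = pM y ↔ ∃ g : G, g • x = y := by
  constructor
  · intro h
    obtain ⟨g, hg⟩ := Quotient.exact h.symm
    exact ⟨g, hg⟩
  · rintro ⟨g, rfl⟩
    exact (pM_smul g x).symm

instance : T2Space M := inferInstanceAs (T2Space (orbitRel.Quotient G N))

instance : ConnectedSpace M := surjective_pM.connectedSpace continuous_pM

instance : CompactSpace M := by
  -- a compact set of representatives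
  set K : Set N := (X.z ⁻¹' (Metric.closedBall (0 : ℂ) 1)) ×ˢ (Metric.closedBall (0 : ℂ × ℂ) 3)
    with hK
  have hKc : IsCompact K := (isCompact_preimage_z (isCompact_closedBall _ _)).prod
    (isCompact_closedBall _ _)
  have hsurj : pM '' K = univ := by
    rw [eq_univ_iff_forall]
    intro y
    obtain ⟨x, rfl⟩ := surjective_pM y
    obtain ⟨_, ⟨m, n, rfl⟩, hmn⟩ := exists_GI_near x.1.z
    obtain ⟨l, hl, hlv⟩ := exists_Lat_near (Apow (-m) x.2)
    refine ⟨(⟨-m, -n, -l, Lat.neg_mem hl⟩ : G) • x, ?_, pM_smul _ _⟩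
    refine ⟨?_, ?_⟩
    · rw [mem_preimage, mem_closedBall_zero_iff, smul_fst, act_z]
      have : x.1.z + (((-m : ℤ) : ℂ) + ((-n : ℤ) : ℂ) * I) = x.1.z - (m + n * I) := by
        push_cast; ring
      rw [this]
      exact hmn
    · rw [mem_closedBall_zero_iff, smul_snd]
      rw [← sub_eq_add_neg]
      exact hlv
  exact ⟨by rw [← hsurj]; exact hKc.image continuous_pM⟩

end Pool.Agent.Helper77.PH
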