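import Mathlib

/-!
# An explicit Riemann surface with a cocompact action of `ℤ[i]`

`tri` is the triangle wave, `gg (x + iy) = tri x + i tri y`, and `X = {(z, w) : w² = gg z}`.
`X` is a Riemann surface: the coordinate is `z` where `w ≠ 0`, and `w` or `conj w` near `w = 0`.
-/

open Complex Set Filter Topology
open scoped ContDiff Manifold ComplexConjugate
noncomputable section

namespace Pool.Agent.Helper77.PH

/-! ## The triangle wave -/

/-- the triangle wave of period `1`, equal to `x` on `[-1/4, 1/4]` -/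
def tri (x : ℝ) : ℝ := Real.arcsin (Real.sin (2 * Real.pi * x)) / (2 * Real.pi)

theorem continuous_tri : Continuous tri := by
  unfold tri
  exact (Real.continuous_arcsin.comp (Real.continuous_sin.comp
    (continuous_const.mul continuous_id))).div_const _

theorem tri_add_half (x : ℝ) : tri (x + 1 / 2) = -tri x := by
  unfold tri
  have : 2 * Real.pi * (x + 1 / 2) = 2 * Real.pi * x + Real.pi := by ring
  rw [this, Real.sin_add_pi, Real.arcsin_neg, neg_div]

theorem tri_eq {x : ℝ} (hx : |x| ≤ 1 / 4) : tri x = x := by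
  unfold tri
  have hpi := Real.pi_pos
  rw [abs_le] at hx
  rw [Real.arcsin_sin (by nlinarith [hx.1]) (by nlinarith [hx.2])]
  field_simp

/-- `(-1)^n` as a real number -/
def sg (n : ℤ) : ℝ := ((-1 : ℤˣ) ^ n : ℤˣ)

theorem sg_cases (n : ℤ) : sg n = 1 ∨ sg n = -1 := by
  unfold sg
  rcases Int.units_eq_one_or ((-1 : ℤˣ) ^ n) with h | h
  · left; rw [h]; simp
  · right; rw [h]; simp

theorem sg_succ (n : ℤ) : sg (n + 1) = -sg n := by
  unfold sg
  rw [zpow_add, zpow_one]
  simp

theorem sg_zero : sg 0 = 1 := by simp [sg]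

theorem tri_add_int_half (x : ℝ) (n : ℤ) : tri (x + n / 2) = sg n * tri x := by
  induction n using Int.induction_on with
  | zero => simp [sg_zero]
  | succ k ih =>
    have h1 : x + ((k + 1 : ℤ) : ℝ) / 2 = (x + ((k : ℤ) : ℝ) / 2) + 1 / 2 := by
      push_cast; ring
    rw [h1, tri_add_half, ih, sg_succ]; ring
  | pred k ih =>
    have h1 : x + ((-(k : ℤ) : ℤ) : ℝ) / 2 = (x + ((-(k : ℤ) - 1 : ℤ) : ℝ) / 2) + 1 / 2 := by
      push_cast; ring
    rw [h1, tri_add_half] at ih
    have h2 : sg (-(k : ℤ)) = -sg (-(k : ℤ) - 1) := by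
      rw [← sg_succ]; congr 1; ring
    rw [h2] at ih
    linarith

theorem sg_two_mul (n : ℤ) : sg (2 * n) = 1 := by
  unfold sg
  rw [zpow_mul]
  simp

theorem tri_add_int (x : ℝ) (n : ℤ) : tri (x + n) = tri x := by
  have := tri_add_int_half x (2 * n)
  rw [sg_two_mul, one_mul] at this
  rw [← this]
  congr 1
  push_cast
  ring

theorem tri_eq_zero_iff (x : ℝ) : tri x = 0 ↔ ∃ n : ℤ, x = n / 2 := by
  unfold tri
  have hpi := Real.pi_pos
  rw [div_eq_zero_iff, or_iff_left (by positivity), Real.arcsin_eq_zero_iff,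
    Real.sin_eq_zero_iff]
  constructor
  · rintro ⟨n, hn⟩
    refine ⟨n, ?_⟩
    have : (n : ℝ) * Real.pi = (2 * x) * Real.pi := by rw [hn]; ring
    have := mul_right_cancel₀ hpi.ne' this
    linarith
  · rintro ⟨n, rfl⟩
    exact ⟨n, by ring⟩

theorem tri_abs_le (x : ℝ) : |tri x| ≤ 1 / 4 := by
  unfold tri
  have hpi := Real.pi_pos
  rw [abs_div, abs_of_pos (by positivity : (0 : ℝ) < 2 * Real.pi), div_le_iff₀ (by positivity),
    abs_le]
  have h1 := Real.neg_pi_div_two_le_arcsin (Real.sin (2 * Real.pi * x))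
  have h2 := Real.arcsin_le_pi_div_two (Real.sin (2 * Real.pi * x))
  constructor <;> linarith

/-! ## The function `gg` -/

/-- `gg (x + iy) = tri x + i tri y` -/
def gg (z : ℂ) : ℂ := ⟨tri z.re, tri z.im⟩

theorem continuous_gg : Continuous gg := by
  have : gg = fun z => ((tri z.re : ℝ) : ℂ) + ((tri z.im : ℝ) : ℂ) * I := by
    funext z
    apply Complex.ext <;> simp [gg]
  rw [this]
  exact (continuous_ofReal.comp (continuous_tri.comp continuous_re)).add
    ((continuous_ofReal.comp (continuous_tri.comp continuous_im)).mul continuous_const)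

theorem gg_add_int (z : ℂ) (m n : ℤ) : gg (z + (m + n * I)) = gg z := by
  unfold gg
  apply Complex.ext
  · simp only [add_re, intCast_re, mul_re, I_re, mul_zero, intCast_im, I_im, mul_one, sub_self,
      add_zero]
    exact tri_add_int _ _
  · simp only [add_im, intCast_im, mul_im, intCast_re, I_im, mul_one, I_re, mul_zero, add_zero,
      zero_add]
    exact tri_add_int _ _

/-- conjugation if the flag is on -/
def cj (c : Bool) (z : ℂ) : ℂ := if c then conj z else z

theorem cj_cj (c : Bool) (z : ℂ) : cj c (cj c z) = z := by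
  unfold cj; cases c <;> simp

theorem cj_mul (c : Bool) (z w : ℂ) : cj c (z * w) = cj c z * cj c w := by
  unfold cj; cases c <;> simp

theorem cj_div (c : Bool) (z w : ℂ) : cj c (z / w) = cj c z / cj c w := by
  unfold cj; cases c <;> simp

theorem cj_sq (c : Bool) (z : ℂ) : cj c (z ^ 2) = cj c z ^ 2 := by
  unfold cj; cases c <;> simp

theorem cj_ofReal (c : Bool) (r : ℝ) : cj c (r : ℂ) = r := by
  unfold cj; cases c <;> simp

theorem cj_zero (c : Bool) : cj c 0 = 0 := by
  unfold cj; cases c <;> simp

theorem cj_inj (c : Bool) {z w : ℂ} (h : cj c z = cj c w) : z = w := by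
  rw [← cj_cj c z, h, cj_cj]

theorem continuous_cj (c : Bool) : Continuous (cj c) := by
  unfold cj; cases c
  · exact continuous_id
  · exact Complex.continuous_conj

theorem cj_eq_zero (c : Bool) {z : ℂ} : cj c z = 0 ↔ z = 0 := by
  unfold cj; cases c <;> simp

theorem cj_slit (c : Bool) {z : ℂ} (hz : cj c z ∈ slitPlane) : z ∈ slitPlane := by
  unfold cj at hz; cases c
  · exact hz
  · rw [mem_slitPlane_iff] at hz ⊢
    simpa using hz

/-- the square root commutes with conjugation on the slit plane -/
theorem cj_sqrt (c : Bool) {z : ℂ} (hz : z ∈ slitPlane) :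
    cj c ((cj c z) ^ (2⁻¹ : ℂ)) = z ^ (2⁻¹ : ℂ) := by
  unfold cj; cases c
  · simp
  · simp only [if_true]
    rw [conj_cpow _ _ (mem_slitPlane_iff_arg.1 hz).1]
    rw [map_inv₀, map_ofNat, conj_conj]

/-- the open square of half side `1/4` about `b` -/
def box (b : ℂ) : Set ℂ := {z | |(z - b).re| < 1 / 4 ∧ |(z - b).im| < 1 / 4}

theorem isOpen_box (b : ℂ) : IsOpen (box b) :=
  (isOpen_lt (continuous_abs.comp (continuous_re.comp (continuous_id.sub continuous_const)))
    continuous_const).inter
  (isOpen_lt (continuous_abs.comp (continuous_im.comp (continuous_id.sub continuous_const)))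
    continuous_const)

theorem self_mem_box (b : ℂ) : b ∈ box b := by
  simp [box]

/-- the sign of `gg` at a zero -/
def eps (b : ℂ) : ℂ := 8 * gg (b + 1 / 8)

/-- the orientation of `gg` at a zero -/
def flag (b : ℂ) : Bool := decide (gg (b + I / 8) = -(eps b * I / 8))

theorem gg_eq_zero_iff (b : ℂ) : gg b = 0 ↔ ∃ k l : ℤ, b = (k / 2 : ℂ) + (l / 2 : ℂ) * I := by
  have h0 : gg b = 0 ↔ tri b.re = 0 ∧ tri b.im = 0 := by
    constructor
    · intro h
      exact ⟨congrArg Complex.re h, congrArg Complex.im h⟩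
    · rintro ⟨h1, h2⟩
      apply Complex.ext
      · exact h1
      · exact h2
  rw [h0, tri_eq_zero_iff, tri_eq_zero_iff]
  constructor
  · rintro ⟨⟨k, hk⟩, ⟨l, hl⟩⟩
    refine ⟨k, l, ?_⟩
    apply Complex.ext
    · simp [hk]
    · simp [hl]
  · rintro ⟨k, l, rfl⟩
    refine ⟨⟨k, ?_⟩, ⟨l, ?_⟩⟩ <;> simp

/-- `eps` is a sign -/
theorem local_form {b : ℂ} (hb : gg b = 0) :
    (eps b = 1 ∨ eps b = -1) ∧ ∀ z ∈ box b, gg z = eps b * cj (flag b) (z - b) := by
  obtain ⟨k, l, rfl⟩ := (gg_eq_zero_iff b).1 hb
  set b : ℂ := (k / 2 : ℂ) + (l / 2 : ℂ) * I with hbdef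
  have hre : b.re = k / 2 := by simp [hbdef]
  have him : b.im = l / 2 := by simp [hbdef]
  -- values of `tri`
  have htri : ∀ (t : ℝ) (n : ℤ), |t| ≤ 1 / 4 → tri (t + n / 2) = sg n * t := by
    intro t n ht
    rw [tri_add_int_half, tri_eq ht]
  have hg : ∀ d : ℂ, |d.re| ≤ 1 / 4 → |d.im| ≤ 1 / 4 →
      gg (b + d) = ⟨sg k * d.re, sg l * d.im⟩ := by
    intro d h1 h2
    unfold gg
    rw [add_re, add_im, hre, him, add_comm _ d.re, add_comm _ d.im, htri _ _ h1, htri _ _ h2]
  have heps : eps b = (sg k : ℂ) := by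
    unfold eps
    rw [hg _ (by norm_num) (by norm_num)]
    apply Complex.ext <;> norm_num
    ring
  have hepsI : gg (b + I / 8) = ⟨0, sg l / 8⟩ := by
    rw [hg _ (by norm_num) (by norm_num)]
    apply Complex.ext <;> norm_num
    ring
  refine ⟨?_, ?_⟩
  · rw [heps]
    rcases sg_cases k with h | h
    · left; rw [h]; simp
    · right; rw [h]; simp
  · intro z hz
    obtain ⟨d, rfl⟩ : ∃ d, z = b + d := ⟨z - b, by ring⟩
    have hd : b + d - b = d := by ring
    rw [box, Set.mem_ofPred_eq, hd] at hz
    rw [hd, hg d hz.1.le hz.2.le, heps]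
    have hflag : flag b = decide (sg l = -sg k) := by
      unfold flag
      rw [heps, hepsI]
      congr 1
      apply propext
      rw [Complex.ext_iff]
      simp
      constructor
      · intro h; linarith
      · intro h; linarith
    rw [hflag]
    by_cases h : sg l = -sg k
    · rw [decide_eq_true h]
      unfold cj
      rw [h]
      apply Complex.ext <;> simp
    · rw [decide_eq_false h]
      have h' : sg l = sg k := by
        rcases sg_cases k with h1 | h1 <;> rcases sg_cases l with h2 | h2 <;>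
          simp_all
      unfold cj
      rw [h']
      apply Complex.ext <;> simp

/-! ## The surface -/

/-- the surface `w² = gg z` -/
def X : Type := {p : ℂ × ℂ // p.2 ^ 2 = gg p.1}

instance : TopologicalSpace X := instTopologicalSpaceSubtype

instance : T2Space X := inferInstanceAs (T2Space {p : ℂ × ℂ // p.2 ^ 2 = gg p.1})

/-- the coordinate `z` -/
def X.z (p : X) : ℂ := p.1.1

/-- the coordinate `w` -/
def X.w (p : X) : ℂ := p.1.2

theorem X.eq (p : X) : p.w ^ 2 = gg p.z := p.2

theorem X.ext' {p q : X} (h1 : p.z = q.z) (h2 : p.w = q.w) : p = q :=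
  Subtype.ext (Prod.ext h1 h2)

theorem continuous_z : Continuous X.z := continuous_fst.comp continuous_subtype_val

theorem continuous_w : Continuous X.w := continuous_snd.comp continuous_subtype_val

theorem isClosed_X : IsClosed {p : ℂ × ℂ | p.2 ^ 2 = gg p.1} :=
  isClosed_eq (continuous_snd.pow 2) (continuous_gg.comp continuous_fst)

theorem continuousOn_iff_X {α : Type*} [TopologicalSpace α] {f : α → X} {s : Set α} :
    ContinuousOn f s ↔ ContinuousOn (fun a => (f a).z) s ∧ ContinuousOn (fun a => (f a).w) s := by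
  have h1 : ContinuousOn f s ↔ ContinuousOn (fun a => (f a).1) s :=
    Topology.IsInducing.subtypeVal.continuousOn_iff
  rw [h1]
  constructor
  · intro h
    exact ⟨h.fst, h.snd⟩
  · rintro ⟨h2, h3⟩
    exact h2.prodMk h3

/-! ### The charts -/

theorem slit_of_re_pos {v : ℂ} (hv : 0 < v.re) : v ^ 2 ∈ slitPlane := by
  rw [mem_slitPlane_iff]
  by_cases him : v.im = 0
  · left
    rw [pow_two, mul_re, him]
    nlinarith
  · right
    rw [pow_two, mul_im]
    have : v.re * v.im + v.im * v.re = 2 * (v.re * v.im) := by ring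
    rw [this]
    have := mul_ne_zero hv.ne' him
    exact mul_ne_zero two_ne_zero this

theorem re_sqrt_pos {a : ℂ} (ha : a ∈ slitPlane) : 0 < (a ^ (2⁻¹ : ℂ)).re := by
  have hne := slitPlane_ne_zero ha
  have harg := (mem_slitPlane_iff_arg.1 ha).1
  have h1 : a ^ (2⁻¹ : ℂ) = exp (log a * 2⁻¹) := cpow_def_of_ne_zero hne _
  rw [h1, exp_re]
  apply mul_pos (Real.exp_pos _)
  have h2 : (log a * 2⁻¹).im = arg a / 2 := by
    have : (2⁻¹ : ℂ) = ((2⁻¹ : ℝ) : ℂ) := by push_cast; rfl
    rw [this, mul_im, ofReal_re, ofReal_im, mul_zero, zero_add, log_im]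
    ring
  rw [h2]
  apply Real.cos_pos_of_mem_Ioo
  have h3 := neg_pi_lt_arg a
  have h4 := lt_of_le_of_ne (arg_le_pi a) harg
  constructor <;> linarith

/-- the chart `z` near a point with `w ≠ 0` -/
def chartA (p : X) (hp : p.w ≠ 0) : OpenPartialHomeomorph X ℂ where
  toFun q := q.z
  invFun z := ⟨(z, p.w * (gg z / p.w ^ 2) ^ (2⁻¹ : ℂ)), by
    change (p.w * (gg z / p.w ^ 2) ^ (2⁻¹ : ℂ)) ^ 2 = gg z
    rw [mul_pow, cpow_ofNat_inv_pow]
    field_simp⟩
  source := {q | 0 < (q.w / p.w).re}
  target := {z | gg z / p.w ^ 2 ∈ slitPlane}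
  map_source' := by
    intro q hq
    change gg q.z / p.w ^ 2 ∈ slitPlane
    rw [← q.eq, ← div_pow]
    exact slit_of_re_pos hq
  map_target' := by
    intro z hz
    change 0 < (p.w * (gg z / p.w ^ 2) ^ (2⁻¹ : ℂ) / p.w).re
    rw [mul_div_cancel_left₀ _ hp]
    exact re_sqrt_pos hz
  left_inv' := by
    intro q hq
    apply X.ext'
    · rfl
    · change p.w * (gg q.z / p.w ^ 2) ^ (2⁻¹ : ℂ) = q.w
      rw [← q.eq, ← div_pow, sq_cpow_two_inv hq]
      field_simp
  right_inv' := by
    intro z hz
    rfl
  open_source := by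
    exact isOpen_lt continuous_const (continuous_re.comp (continuous_w.div_const _))
  open_target := isOpen_slitPlane.preimage (continuous_gg.div_const _)
  continuousOn_toFun := continuous_z.continuousOn
  continuousOn_invFun := by
    rw [continuousOn_iff_X]
    refine ⟨continuousOn_id, ?_⟩
    apply ContinuousOn.mul continuousOn_const
    apply ContinuousOn.cpow_const (continuous_gg.div_const _).continuousOn
    intro z hz
    exact hz

theorem X.gg_z {p : X} (hp : p.w = 0) : gg p.z = 0 := by
  rw [← p.eq, hp]; simp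

theorem eps_sq {b : ℂ} (hb : gg b = 0) : eps b ^ 2 = 1 := by
  rcases (local_form hb).1 with h | h <;> rw [h] <;> norm_num

theorem cj_eps {b : ℂ} (hb : gg b = 0) (c : Bool) : cj c (eps b) = eps b := by
  unfold cj
  rcases (local_form hb).1 with h | h <;> rw [h] <;> cases c <;> simp

open Classical in
/-- the point of `X` with coordinate `u` near the branch point `p` -/
def invB (p : X) (u : ℂ) : X :=
  if h : (cj (flag p.z) u) ^ 2 = gg (p.z + eps p.z * u ^ 2) then
    ⟨(p.z + eps p.z * u ^ 2, cj (flag p.z) u), h⟩ else p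

theorem invB_cond {p : X} (hp : p.w = 0) {u : ℂ} (hu : p.z + eps p.z * u ^ 2 ∈ box p.z) :
    (cj (flag p.z) u) ^ 2 = gg (p.z + eps p.z * u ^ 2) := by
  rw [(local_form (X.gg_z hp)).2 _ hu, add_sub_cancel_left, cj_mul, cj_eps (X.gg_z hp), cj_sq,
    ← mul_assoc, ← pow_two, eps_sq (X.gg_z hp), one_mul]

theorem invB_z {p : X} (hp : p.w = 0) {u : ℂ} (hu : p.z + eps p.z * u ^ 2 ∈ box p.z) :
    (invB p u).z = p.z + eps p.z * u ^ 2 := by
  unfold invB
  rw [dif_pos (invB_cond hp hu)]
  rfl

theorem invB_w {p : X} (hp : p.w = 0) {u : ℂ} (hu : p.z + eps p.z * u ^ 2 ∈ box p.z) :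
    (invB p u).w = cj (flag p.z) u := by
  unfold invB
  rw [dif_pos (invB_cond hp hu)]
  rfl

/-- in the box of a branch point `z = b + ε u²` -/
theorem z_eq_of_box {p q : X} (hp : p.w = 0) (hq : q.z ∈ box p.z) :
    p.z + eps p.z * (cj (flag p.z) q.w) ^ 2 = q.z := by
  have h1 := (local_form (X.gg_z hp)).2 _ hq
  rw [← q.eq] at h1
  rw [← cj_sq, h1, cj_mul, cj_eps (X.gg_z hp), cj_cj, ← mul_assoc, ← pow_two,
    eps_sq (X.gg_z hp), one_mul]
  ring

/-- the chart `u` near a point with `w = 0` -/
def chartB (p : X) (hp : p.w = 0) : OpenPartialHomeomorph X ℂ where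
  toFun q := cj (flag p.z) q.w
  invFun := invB p
  source := {q | q.z ∈ box p.z}
  target := {u | p.z + eps p.z * u ^ 2 ∈ box p.z}
  map_source' := by
    intro q hq
    change p.z + eps p.z * (cj (flag p.z) q.w) ^ 2 ∈ box p.z
    rw [z_eq_of_box hp hq]
    exact hq
  map_target' := by
    intro u hu
    change (invB p u).z ∈ box p.z
    rw [invB_z hp hu]
    exact hu
  left_inv' := by
    intro q hq
    have hu : p.z + eps p.z * (cj (flag p.z) q.w) ^ 2 ∈ box p.z := by
      rw [z_eq_of_box hp hq]
      exact hq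
    apply X.ext'
    · rw [invB_z hp hu, z_eq_of_box hp hq]
    · rw [invB_w hp hu, cj_cj]
  right_inv' := by
    intro u hu
    rw [invB_w hp hu, cj_cj]
  open_source := (isOpen_box _).preimage continuous_z
  open_target := (isOpen_box (p.z)).preimage
    (show Continuous fun u : ℂ => p.z + eps p.z * u ^ 2 by fun_prop)
  continuousOn_toFun := ((continuous_cj _).comp continuous_w).continuousOn
  continuousOn_invFun := by
    rw [continuousOn_iff_X]
    constructor
    · refine ContinuousOn.congr (f := fun u => p.z + eps p.z * u ^ 2) ?_ ?_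
      · exact (continuous_const.add (continuous_const.mul (continuous_id.pow 2))).continuousOn
      · intro u hu
        exact invB_z hp hu
    · refine ContinuousOn.congr (f := fun u => cj (flag p.z) u) ?_ ?_
      · exact (continuous_cj _).continuousOn
      · intro u hu
        exact invB_w hp hu

open Classical in
/-- the preferred chart -/
def chartX (p : X) : OpenPartialHomeomorph X ℂ :=
  if hp : p.w = 0 then chartB p hp else chartA p hp

theorem chartX_of_eq {p : X} (hp : p.w = 0) : chartX p = chartB p hp := by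
  unfold chartX; rw [dif_pos hp]

theorem chartX_of_ne {p : X} (hp : p.w ≠ 0) : chartX p = chartA p hp := by
  unfold chartX; rw [dif_neg hp]

theorem mem_chartX_source (p : X) : p ∈ (chartX p).source := by
  by_cases hp : p.w = 0
  · rw [chartX_of_eq hp]
    exact self_mem_box _
  · rw [chartX_of_ne hp]
    change 0 < (p.w / p.w).re
    rw [div_self hp]
    simp

instance : ChartedSpace ℂ X where
  atlas := range chartX
  chartAt := chartX
  mem_chart_source := mem_chartX_source
  chart_mem_atlas p := ⟨p, rfl⟩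

theorem chartAt_X (p : X) : chartAt ℂ p = chartX p := rfl

/-- two branch points with intersecting boxes coincide -/
theorem eq_of_box {p q : X} (hp : p.w = 0) (hq : q.w = 0) {z : ℂ} (h1 : z ∈ box p.z)
    (h2 : z ∈ box q.z) : p = q := by
  obtain ⟨k, l, hkl⟩ := (gg_eq_zero_iff _).1 (X.gg_z hp)
  obtain ⟨k', l', hkl'⟩ := (gg_eq_zero_iff _).1 (X.gg_z hq)
  have hz : p.z = q.z := by
    have hre : |(p.z - q.z).re| < 1 / 2 := by
      have : (p.z - q.z).re = (z - q.z).re - (z - p.z).re := by simp
      rw [this]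
      have h3 := abs_sub (z - q.z).re (z - p.z).re
      have h4 := h1.1
      have h5 := h2.1
      linarith
    have him : |(p.z - q.z).im| < 1 / 2 := by
      have : (p.z - q.z).im = (z - q.z).im - (z - p.z).im := by simp
      rw [this]
      have h3 := abs_sub (z - q.z).im (z - p.z).im
      have h4 := h1.2
      have h5 := h2.2
      linarith
    have e1 : (p.z - q.z).re = (k - k' : ℤ) / 2 := by
      rw [hkl, hkl']; simp; ring
    have e2 : (p.z - q.z).im = (l - l' : ℤ) / 2 := by
      rw [hkl, hkl']; simp; ring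
    have f1 : k - k' = 0 := by
      rw [e1, abs_div, abs_of_pos (by norm_num : (0 : ℝ) < 2), div_lt_div_iff_of_pos_right
        (by norm_num)] at hre
      have : |(k - k' : ℤ)| < 1 := by exact_mod_cast hre
      exact Int.abs_lt_one_iff.1 this
    have f2 : l - l' = 0 := by
      rw [e2, abs_div, abs_of_pos (by norm_num : (0 : ℝ) < 2), div_lt_div_iff_of_pos_right
        (by norm_num)] at him
      have : |(l - l' : ℤ)| < 1 := by exact_mod_cast him
      exact Int.abs_lt_one_iff.1 this
    have g1 : k = k' := by omega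
    have g2 : l = l' := by omega
    rw [hkl, hkl', g1, g2]
  exact X.ext' hz (by rw [hp, hq])

/-- `X` is a Riemann surface. -/
instance : IsManifold 𝓘(ℂ) ω X := by
  apply isManifold_of_contDiffOn
  rintro _ _ ⟨p, rfl⟩ ⟨q, rfl⟩
  simp only [modelWithCornersSelf_coe, modelWithCornersSelf_coe_symm, Function.id_comp,
    Function.comp_id, range_id, inter_univ, preimage_id]
  have hopen := ((chartX p).symm.trans (chartX q)).open_source
  apply DifferentiableOn.contDiffOn _ hopen
  by_cases hp : p.w = 0
  · rw [chartX_of_eq hp] at hopen ⊢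
    by_cases hq : q.w = 0
    · -- both branch charts
      rw [chartX_of_eq hq] at hopen ⊢
      intro u hu
      rw [OpenPartialHomeomorph.trans_source] at hu
      have hu1 : p.z + eps p.z * u ^ 2 ∈ box p.z := hu.1
      have hu2 : (invB p u).z ∈ box q.z := hu.2
      rw [invB_z hp hu1] at hu2
      have hpq := eq_of_box hp hq hu1 hu2
      subst hpq
      refine (differentiableWithinAt_id).congr_of_eventuallyEq ?_ ?_
      · filter_upwards [self_mem_nhdsWithin] with v hv
        rw [OpenPartialHomeomorph.trans_source] at hv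
        change cj (flag p.z) (invB p v).w = v
        rw [invB_w hp hv.1, cj_cj]
      · change cj (flag p.z) (invB p u).w = u
        rw [invB_w hp hu1, cj_cj]
    · -- from the branch chart to `z`
      rw [chartX_of_ne hq] at hopen ⊢
      have : DifferentiableOn ℂ (fun u : ℂ => p.z + eps p.z * u ^ 2)
          ((chartB p hp).symm.trans (chartA q hq)).source := by fun_prop
      refine this.congr ?_
      intro u hu
      rw [OpenPartialHomeomorph.trans_source] at hu
      change (invB p u).z = p.z + eps p.z * u ^ 2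
      exact invB_z hp hu.1
  · rw [chartX_of_ne hp] at hopen ⊢
    by_cases hq : q.w = 0
    · -- from `z` to the branch chart
      rw [chartX_of_eq hq] at hopen ⊢
      set c := flag q.z with hc
      have hdiff : DifferentiableOn ℂ (fun z : ℂ => cj c p.w *
          (eps q.z * (z - q.z) / (cj c p.w) ^ 2) ^ (2⁻¹ : ℂ))
          ((chartA p hp).symm.trans (chartB q hq)).source ∧
          ∀ z ∈ ((chartA p hp).symm.trans (chartB q hq)).source,
            cj c (p.w * (gg z / p.w ^ 2) ^ (2⁻¹ : ℂ)) = cj c p.w *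
              (eps q.z * (z - q.z) / (cj c p.w) ^ 2) ^ (2⁻¹ : ℂ) := by
        have key : ∀ z ∈ ((chartA p hp).symm.trans (chartB q hq)).source,
            eps q.z * (z - q.z) / (cj c p.w) ^ 2 ∈ slitPlane ∧
            gg z / p.w ^ 2 = cj c (eps q.z * (z - q.z) / (cj c p.w) ^ 2) := by
          intro z hz
          rw [OpenPartialHomeomorph.trans_source] at hz
          have hz1 : gg z / p.w ^ 2 ∈ slitPlane := hz.1
          have hz2 : z ∈ box q.z := hz.2
          have h3 := (local_form (X.gg_z hq)).2 z hz2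
          have h4 : gg z / p.w ^ 2 = cj c (eps q.z * (z - q.z) / (cj c p.w) ^ 2) := by
            rw [h3, cj_div, cj_mul, cj_eps (X.gg_z hq), cj_sq, cj_cj]
          rw [h4] at hz1
          exact ⟨cj_slit c hz1, h4⟩
        constructor
        · apply DifferentiableOn.const_mul
          intro z hz
          apply DifferentiableWithinAt.cpow_const
          · fun_prop
          · exact (key z hz).1
        · intro z hz
          obtain ⟨k1, k2⟩ := key z hz
          rw [cj_mul, k2, cj_sqrt c k1]
      refine hdiff.1.congr ?_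
      intro z hz
      exact hdiff.2 z hz
    · -- both `z`
      rw [chartX_of_ne hq] at hopen ⊢
      refine differentiableOn_id.congr ?_
      intro z _
      rfl

end Pool.Agent.Helper77.PH
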