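import Pool.Agent.Helper77.PH.Surface

/-!
# The explicit Riemann surface: topology, the function `z` and the action of `ℤ[i]`
-/

open Complex Set Filter Topology
open scoped ContDiff Manifold ComplexConjugate
noncomputable section

namespace Pool.Agent.Helper77.PH

/-! ## Topology -/

/-- the embedding in `ℂ × ℂ` -/
def X.pr (p : X) : ℂ × ℂ := (p.z, p.w)

theorem isClosedEmbedding_pr : IsClosedEmbedding X.pr :=
  isClosed_X.isClosedEmbedding_subtypeVal

instance : LocallyCompactSpace X := isClosedEmbedding_pr.locallyCompactSpace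

theorem norm_gg_le (z : ℂ) : ‖gg z‖ ≤ 1 := by
  have h1 := tri_abs_le z.re
  have h2 := tri_abs_le z.im
  have h3 := Complex.norm_le_abs_re_add_abs_im (gg z)
  have h4 : (gg z).re = tri z.re := rfl
  have h5 : (gg z).im = tri z.im := rfl
  rw [h4, h5] at h3
  linarith

theorem norm_w_sq (p : X) : ‖p.w‖ ^ 2 = ‖gg p.z‖ := by
  rw [← p.eq, norm_pow]

theorem norm_w_le (p : X) : ‖p.w‖ ≤ 1 := by
  have h1 := norm_w_sq p
  have h2 := norm_gg_le p.z
  nlinarith [norm_nonneg p.w]

theorem isCompact_preimage_z {K : Set ℂ} (hK : IsCompact K) : IsCompact (X.z ⁻¹' K) := by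
  have h1 := isClosedEmbedding_pr.isCompact_preimage
    (hK.prod (isCompact_closedBall (0 : ℂ) 1))
  have h2 : X.z ⁻¹' K = X.pr ⁻¹' (K ×ˢ Metric.closedBall (0 : ℂ) 1) := by
    apply Set.ext
    intro p
    simp only [mem_preimage, mem_prod, mem_closedBall_zero_iff, X.pr]
    exact ⟨fun h => ⟨h, norm_w_le p⟩, fun h => h.1⟩
  rw [h2]
  exact h1

theorem isProperMap_z : IsProperMap X.z := by
  rw [isProperMap_iff_isCompact_preimage]
  exact ⟨continuous_z, fun K hK => isCompact_preimage_z hK⟩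

theorem tendsto_of_branch {p : X} (hp : p.w = 0) {S : Set X} (hS : S ∈ 𝓝 p) :
    ∃ V ∈ 𝓝 p.z, ∀ q : X, q.z ∈ V → q ∈ S := by
  have h1 : 𝓝 p = comap X.pr (𝓝 (X.pr p)) := isClosedEmbedding_pr.isInducing.nhds_eq_comap p
  have h1' : X.pr p = (p.z, 0) := by rw [X.pr, hp]
  rw [h1, h1', mem_comap] at hS
  obtain ⟨T, hT, hTS⟩ := hS
  rw [nhds_prod_eq, mem_prod_iff] at hT
  obtain ⟨A, hA, B, hB, hAB⟩ := hT
  obtain ⟨r, hr, hrB⟩ := Metric.mem_nhds_iff.1 hB
  have h2 : {z : ℂ | ‖gg z‖ < r ^ 2} ∈ 𝓝 p.z := by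
    apply (isOpen_lt (continuous_norm.comp continuous_gg) continuous_const).mem_nhds
    change ‖gg p.z‖ < r ^ 2
    rw [X.gg_z hp, norm_zero]
    positivity
  refine ⟨A ∩ {z : ℂ | ‖gg z‖ < r ^ 2}, inter_mem hA h2, ?_⟩
  intro q hq
  apply hTS
  apply hAB
  refine ⟨hq.1, hrB ?_⟩
  rw [mem_ball_zero_iff]
  have h3 : ‖q.w‖ ^ 2 < r ^ 2 := by rw [norm_w_sq]; exact hq.2
  exact lt_of_pow_lt_pow_left₀ 2 hr.le h3

theorem exists_over (z : ℂ) : ∃ q : X, q.z = z := by
  obtain ⟨w, hw⟩ := IsSquare.exists_sq _ (Complex.isSquare (gg z))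
  exact ⟨⟨(z, w), by simpa using hw.symm⟩, rfl⟩

theorem isOpenMap_z : IsOpenMap X.z := by
  rw [isOpenMap_iff_nhds_le]
  intro p
  by_cases hp : p.w = 0
  · intro S hS
    obtain ⟨V, hV, hVS⟩ := tendsto_of_branch hp (mem_map.1 hS)
    refine mem_of_superset hV ?_
    intro z hz
    obtain ⟨q, rfl⟩ := exists_over z
    exact hVS q hz
  · have h1 := (chartA p hp).map_nhds_eq (x := p) (by
      change 0 < (p.w / p.w).re
      rw [div_self hp]; simp)
    exact h1.ge

theorem X.eq_of_branch {p q : X} (hp : p.w = 0) (h : p.z = q.z) : p = q := by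
  apply X.ext' h
  have h1 : q.w ^ 2 = 0 := by rw [q.eq, ← h, X.gg_z hp]
  rw [hp, pow_eq_zero_iff two_ne_zero |>.1 h1]

/-- the branch point over `0` -/
def X.origin : X := ⟨(0, 0), by
  have : gg 0 = 0 := by
    rw [gg_eq_zero_iff]
    exact ⟨0, 0, by simp⟩
  simp [this]⟩

instance : PreconnectedSpace X := by
  rw [preconnectedSpace_iff_clopen]
  intro U hU
  by_contra hcon
  rw [not_or] at hcon
  obtain ⟨h1, h2⟩ := hcon
  have key : ∀ W : Set X, IsClopen W → W.Nonempty → X.origin ∈ W := by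
    intro W hW hne
    have h3 : IsClopen (X.z '' W) := ⟨isProperMap_z.isClosedMap _ hW.1, isOpenMap_z _ hW.2⟩
    have h4 : X.z '' W = univ := h3.eq_univ (hne.image _)
    obtain ⟨q, hq, hq0⟩ := (h4 ▸ mem_univ (0 : ℂ) : (0 : ℂ) ∈ X.z '' W)
    have h5 : X.origin = q := X.eq_of_branch rfl hq0.symm
    rw [h5]; exact hq
  have h5 := key U hU (nonempty_iff_ne_empty.2 h1)
  have h6 := key Uᶜ hU.compl (nonempty_compl.2 h2)
  exact h6 h5

instance : ConnectedSpace X := { toNonempty := ⟨X.origin⟩ }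

/-! ## The holomorphic function `z` -/

theorem extChartAt_X (p : X) : (extChartAt 𝓘(ℂ) p : X → ℂ) = chartX p := by
  rw [extChartAt_coe, chartAt_X, modelWithCornersSelf_coe, Function.id_comp]

theorem extChartAt_X_symm (p : X) : ((extChartAt 𝓘(ℂ) p).symm : ℂ → X) = (chartX p).symm := by
  rw [extChartAt_coe_symm, chartAt_X, modelWithCornersSelf_coe_symm, Function.comp_id]

/-- near the base point, `z` in the preferred chart -/
theorem z_chart_ne {p : X} (hp : p.w ≠ 0) (u : ℂ) : ((chartX p).symm u).z = u := by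
  rw [chartX_of_ne hp]; rfl

theorem z_chart_eq {p : X} (hp : p.w = 0) :
    ∀ᶠ u in 𝓝 (chartX p p), ((chartX p).symm u).z = p.z + eps p.z * u ^ 2 := by
  rw [chartX_of_eq hp]
  have h1 : (chartB p hp) p ∈ (chartB p hp).target :=
    (chartB p hp).map_source (self_mem_box _)
  filter_upwards [(chartB p hp).open_target.mem_nhds h1] with u hu
  exact invB_z hp hu

theorem chartX_self_eq {p : X} (hp : p.w = 0) : chartX p p = 0 := by
  rw [chartX_of_eq hp]
  change cj (flag p.z) p.w = 0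
  rw [hp, cj_zero]

theorem contMDiff_z : ContMDiff 𝓘(ℂ) 𝓘(ℂ) ω X.z := by
  intro p
  rw [contMDiffAt_iff]
  refine ⟨continuous_z.continuousAt, ?_⟩
  rw [extChartAt_X, extChartAt_X_symm]
  simp only [modelWithCornersSelf_coe, range_id, extChartAt_model_space_eq_id,
    PartialEquiv.refl_coe, Function.id_comp, contDiffWithinAt_univ]
  by_cases hp : p.w = 0
  · have h1 : ContDiffAt ℂ ω (fun u : ℂ => p.z + eps p.z * u ^ 2) (chartX p p) := by fun_prop
    exact h1.congr_of_eventuallyEq (z_chart_eq hp)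
  · have h1 : (X.z ∘ (chartX p).symm) = id := by
      funext u
      exact z_chart_ne hp u
    rw [h1]
    exact contDiffAt_id

theorem mfderiv_z_eq_zero {p : X} (hp : p.w = 0) : mfderiv 𝓘(ℂ) 𝓘(ℂ) X.z p = 0 := by
  have hd : MDifferentiableAt 𝓘(ℂ) 𝓘(ℂ) X.z p := (contMDiff_z p).mdifferentiableAt (by simp)
  rw [mfderiv, if_pos hd]
  rw [writtenInExtChartAt, extChartAt_X, extChartAt_X_symm]
  simp only [modelWithCornersSelf_coe, range_id, extChartAt_model_space_eq_id,
    PartialEquiv.refl_coe, Function.id_comp, fderivWithin_univ]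
  have h1 : (X.z ∘ (chartX p).symm) =ᶠ[𝓝 (chartX p p)] fun u : ℂ => p.z + eps p.z * u ^ 2 :=
    z_chart_eq hp
  rw [h1.fderiv_eq, chartX_self_eq hp]
  have h2 : HasDerivAt (fun u : ℂ => p.z + eps p.z * u ^ 2) 0 0 := by
    have := ((hasDerivAt_pow 2 (0 : ℂ)).const_mul (eps p.z)).const_add p.z
    simpa using this
  rw [h2.hasFDerivAt.fderiv]
  ext
  simp
  rfl

theorem mfderiv_z_ne_zero {p : X} (hp : p.w ≠ 0) (v : ℂ) :
    mfderiv 𝓘(ℂ) 𝓘(ℂ) X.z p v = v := by
  have hd : MDifferentiableAt 𝓘(ℂ) 𝓘(ℂ) X.z p := (contMDiff_z p).mdifferentiableAt (by simp)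
  rw [mfderiv, if_pos hd]
  rw [writtenInExtChartAt, extChartAt_X, extChartAt_X_symm]
  simp only [modelWithCornersSelf_coe, range_id, extChartAt_model_space_eq_id,
    PartialEquiv.refl_coe, Function.id_comp, fderivWithin_univ]
  have h1 : (X.z ∘ (chartX p).symm) = id := by
    funext u
    exact z_chart_ne hp u
  rw [h1, fderiv_id]
  rfl

/-! ## The action of `ℤ × ℤ` -/

theorem gg_add_int' (z a : ℂ) (m n : ℤ) : gg (z + (m + n * I) + a) = gg (z + a) := by
  have : z + (m + n * I) + a = (z + a) + (m + n * I) := by ring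
  rw [this, gg_add_int]

theorem eps_add_int (b : ℂ) (m n : ℤ) : eps (b + (m + n * I)) = eps b := by
  unfold eps
  rw [gg_add_int']

theorem flag_add_int (b : ℂ) (m n : ℤ) : flag (b + (m + n * I)) = flag b := by
  unfold flag
  rw [gg_add_int', eps_add_int]

/-- translation by `m + n i` -/
def act (m n : ℤ) (p : X) : X := ⟨(p.z + (m + n * I), p.w), by
  change p.w ^ 2 = gg (p.z + (m + n * I))
  rw [gg_add_int, p.eq]⟩

@[simp] theorem act_z (m n : ℤ) (p : X) : (act m n p).z = p.z + (m + n * I) := rfl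

@[simp] theorem act_w (m n : ℤ) (p : X) : (act m n p).w = p.w := rfl

theorem act_zero (p : X) : act 0 0 p = p := by
  apply X.ext' <;> simp

theorem act_act (m n m' n' : ℤ) (p : X) : act m n (act m' n' p) = act (m + m') (n + n') p := by
  apply X.ext'
  · simp; ring
  · simp

theorem continuous_act (m n : ℤ) : Continuous (act m n) := by
  have h1 : Continuous (fun p : X => ((act m n p).1 : ℂ × ℂ)) :=
    (continuous_z.add continuous_const).prodMk continuous_w
  exact continuous_induced_rng.2 h1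

theorem contMDiff_act (m n : ℤ) : ContMDiff 𝓘(ℂ) 𝓘(ℂ) ω (act m n) := by
  intro p
  rw [contMDiffAt_iff]
  refine ⟨(continuous_act m n).continuousAt, ?_⟩
  rw [extChartAt_X, extChartAt_X, extChartAt_X_symm]
  simp only [modelWithCornersSelf_coe, range_id, contDiffWithinAt_univ]
  by_cases hp : p.w = 0
  · have hp' : (act m n p).w = 0 := hp
    have h1 : (chartX (act m n p) ∘ act m n ∘ (chartX p).symm) =ᶠ[𝓝 (chartX p p)] id := by
      rw [chartX_of_eq hp, chartX_of_eq hp']
      have h2 : (chartB p hp) p ∈ (chartB p hp).target :=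
        (chartB p hp).map_source (self_mem_box _)
      filter_upwards [(chartB p hp).open_target.mem_nhds h2] with u hu
      change cj (flag (p.z + (m + n * I))) (invB p u).w = u
      rw [flag_add_int, invB_w hp hu, cj_cj]
    exact contDiffAt_id.congr_of_eventuallyEq h1
  · have hp' : (act m n p).w ≠ 0 := hp
    have h1 : (chartX (act m n p) ∘ act m n ∘ (chartX p).symm) = fun u => u + (m + n * I) := by
      rw [chartX_of_ne hp, chartX_of_ne hp']
      rfl
    rw [h1]
    fun_prop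

end Pool.Agent.Helper77.PH
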