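import Pool.Agent.Helper77.PH.Surface2
import Pool.Agent.Helper77.QuotMfd

/-!
# The threefold `M = (X × ℂ²) / G`
-/

open Complex Set Filter Topology
open scoped ContDiff Manifold ComplexConjugate
noncomputable section

namespace Pool.Agent.Helper77.PH

/-! ## The hyperbolic automorphism and the lattice -/

/-- the golden ratio as a complex number -/
def phi : ℂ := (Real.goldenRatio : ℂ)

/-- its conjugate as a complex number -/
def psi : ℂ := (Real.goldenConj : ℂ)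

/-- the expansion rate `φ²` -/
def mu : ℝ := Real.goldenRatio ^ 2

theorem mu_gt_one : 1 < mu := by
  unfold mu
  have := Real.one_lt_goldenRatio
  nlinarith

theorem mu_pos : 0 < mu := lt_trans one_pos mu_gt_one

theorem phi_sq : phi ^ 2 = phi + 1 := by
  unfold phi
  exact_mod_cast congrArg (fun x : ℝ => (x : ℂ)) Real.goldenRatio_sq

theorem psi_sq : psi ^ 2 = psi + 1 := by
  unfold psi
  exact_mod_cast congrArg (fun x : ℝ => (x : ℂ)) Real.goldenConj_sq

theorem mu_eq : (mu : ℂ) = phi ^ 2 := by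
  unfold mu phi; push_cast; rfl

theorem mu_inv : ((mu : ℂ))⁻¹ = psi ^ 2 := by
  have h : phi * psi = -1 := by
    unfold phi psi
    exact_mod_cast congrArg (fun x : ℝ => (x : ℂ)) Real.goldenRatio_mul_goldenConj
  rw [mu_eq]
  have h2 : phi ^ 2 * psi ^ 2 = 1 := by rw [← mul_pow, h]; norm_num
  exact inv_eq_of_mul_eq_one_right h2

/-- `A^m` in eigencoordinates -/
def Apow (m : ℤ) (v : ℂ × ℂ) : ℂ × ℂ := ((mu : ℂ) ^ m * v.1, (mu : ℂ) ^ (-m) * v.2)

theorem mu_ne : (mu : ℂ) ≠ 0 := by exact_mod_cast mu_pos.ne'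

theorem Apow_zero (v : ℂ × ℂ) : Apow 0 v = v := by simp [Apow]

theorem Apow_add (m n : ℤ) (v : ℂ × ℂ) : Apow (m + n) v = Apow m (Apow n v) := by
  unfold Apow
  rw [zpow_add₀ mu_ne, neg_add, zpow_add₀ mu_ne]
  ext <;> simp [mul_assoc]

theorem Apow_vadd (m : ℤ) (v w : ℂ × ℂ) : Apow m (v + w) = Apow m v + Apow m w := by
  unfold Apow
  ext <;> simp [mul_add]

/-- a lattice vector in eigencoordinates -/
def lat (a b : ℂ) : ℂ × ℂ := (phi * a + b, psi * a + b)

/-- Gaussian integers -/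
def GI : AddSubgroup ℂ where
  carrier := {z | ∃ m n : ℤ, z = m + n * I}
  zero_mem' := ⟨0, 0, by simp⟩
  add_mem' := by
    rintro _ _ ⟨m, n, rfl⟩ ⟨m', n', rfl⟩
    exact ⟨m + m', n + n', by push_cast; ring⟩
  neg_mem' := by
    rintro _ ⟨m, n, rfl⟩
    exact ⟨-m, -n, by push_cast; ring⟩

theorem mem_GI {z : ℂ} : z ∈ GI ↔ ∃ m n : ℤ, z = m + n * I := Iff.rfl

theorem GI_norm {z : ℂ} (hz : z ∈ GI) (h : ‖z‖ < 1) : z = 0 := by
  obtain ⟨m, n, rfl⟩ := hz
  have h1 := (abs_re_le_norm ((m : ℂ) + n * I)).trans_lt h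
  have h2 := (abs_im_le_norm ((m : ℂ) + n * I)).trans_lt h
  simp at h1 h2
  have h3 : |m| < 1 := by exact_mod_cast h1
  have h4 : |n| < 1 := by exact_mod_cast h2
  rw [Int.abs_lt_one_iff.1 h3, Int.abs_lt_one_iff.1 h4]
  simp

theorem exists_GI_near (z : ℂ) : ∃ a ∈ GI, ‖z - a‖ ≤ 1 := by
  refine ⟨(round z.re : ℤ) + (round z.im : ℤ) * I, ⟨_, _, rfl⟩, ?_⟩
  refine (Complex.norm_le_abs_re_add_abs_im _).trans ?_
  have h1 := abs_sub_round z.re
  have h2 := abs_sub_round z.im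
  simp
  linarith

/-- the lattice -/
def Lat : AddSubgroup (ℂ × ℂ) where
  carrier := {v | ∃ a ∈ GI, ∃ b ∈ GI, v = lat a b}
  zero_mem' := ⟨0, GI.zero_mem, 0, GI.zero_mem, by unfold lat; ext <;> simp⟩
  add_mem' := by
    rintro _ _ ⟨a, ha, b, hb, rfl⟩ ⟨a', ha', b', hb', rfl⟩
    refine ⟨a + a', GI.add_mem ha ha', b + b', GI.add_mem hb hb', ?_⟩
    unfold lat
    ext <;> simp <;> ring
  neg_mem' := by
    rintro _ ⟨a, ha, b, hb, rfl⟩
    refine ⟨-a, GI.neg_mem ha, -b, GI.neg_mem hb, ?_⟩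
    unfold lat
    ext <;> simp <;> ring

theorem mem_Lat {v : ℂ × ℂ} : v ∈ Lat ↔ ∃ a ∈ GI, ∃ b ∈ GI, v = lat a b := Iff.rfl

theorem Apow_one_lat (a b : ℂ) : Apow 1 (lat a b) = lat (2 * a + b) (a + b) := by
  unfold Apow lat
  have h1 := phi_sq
  have h2 := psi_sq
  have h3 : (mu : ℂ) ^ (1 : ℤ) = phi ^ 2 := by rw [zpow_one, mu_eq]
  have h4 : (mu : ℂ) ^ (-1 : ℤ) = psi ^ 2 := by rw [zpow_neg_one, mu_inv]
  rw [h3, h4]
  ext
  · simp only
    linear_combination (phi * a + b + a) * h1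
  · simp only
    linear_combination (psi * a + b + a) * h2

theorem Apow_neg_one_lat (a b : ℂ) : Apow (-1) (lat a b) = lat (a - b) (2 * b - a) := by
  have h1 : Apow (-1) (Apow 1 (lat (a - b) (2 * b - a))) = lat (a - b) (2 * b - a) := by
    rw [← Apow_add]; exact Apow_zero _
  rw [Apow_one_lat] at h1
  rw [← h1]
  congr 2 <;> ring

theorem Apow_mem (m : ℤ) {v : ℂ × ℂ} (hv : v ∈ Lat) : Apow m v ∈ Lat := by
  induction m using Int.induction_on with
  | zero => rwa [Apow_zero]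
  | succ k ih =>
    rw [add_comm, Apow_add]
    obtain ⟨a, ha, b, hb, h⟩ := ih
    rw [h, Apow_one_lat, two_mul]
    exact ⟨_, GI.add_mem (GI.add_mem ha ha) hb, _, GI.add_mem ha hb, rfl⟩
  | pred k ih =>
    have h1 : (-(k : ℤ) - 1) = -1 + -(k : ℤ) := by ring
    rw [h1, Apow_add]
    obtain ⟨a, ha, b, hb, h⟩ := ih
    rw [h, Apow_neg_one_lat, two_mul]
    exact ⟨_, GI.sub_mem ha hb, _, GI.sub_mem (GI.add_mem hb hb) ha, rfl⟩

theorem sub_phi_psi : phi - psi = (Real.sqrt 5 : ℂ) := by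
  unfold phi psi
  exact_mod_cast congrArg (fun x : ℝ => (x : ℂ)) Real.goldenRatio_sub_goldenConj

theorem sqrt5_gt : (2 : ℝ) < Real.sqrt 5 := by
  rw [Real.lt_sqrt (by norm_num)]; norm_num

theorem Lat_discrete {v : ℂ × ℂ} (hv : v ∈ Lat) (h1 : ‖v.1‖ < 1) (h2 : ‖v.2‖ < 1) : v = 0 := by
  obtain ⟨a, ha, b, hb, rfl⟩ := hv
  unfold lat at h1 h2 ⊢
  simp only at h1 h2
  have h3 : (Real.sqrt 5 : ℂ) * a = (phi * a + b) - (psi * a + b) := by
    rw [← sub_phi_psi]; ring
  have h4 : Real.sqrt 5 * ‖a‖ < 2 := by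
    have : ‖(Real.sqrt 5 : ℂ) * a‖ = Real.sqrt 5 * ‖a‖ := by
      rw [norm_mul, norm_real, Real.norm_of_nonneg (Real.sqrt_nonneg _)]
    rw [← this, h3]
    exact (norm_sub_le _ _).trans_lt (by linarith)
  have ha0 : a = 0 := by
    apply GI_norm ha
    nlinarith [sqrt5_gt, norm_nonneg a]
  subst ha0
  have hb0 : b = 0 := by
    apply GI_norm hb
    simpa using h1
  subst hb0
  simp

theorem exists_Lat_near (v : ℂ × ℂ) : ∃ l ∈ Lat, ‖v - l‖ ≤ 3 := by
  set a' : ℂ := (v.1 - v.2) / (Real.sqrt 5 : ℂ) with ha'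
  set b' : ℂ := v.1 - phi * a' with hb'
  obtain ⟨a, ha, hna⟩ := exists_GI_near a'
  obtain ⟨b, hb, hnb⟩ := exists_GI_near b'
  refine ⟨lat a b, ⟨a, ha, b, hb, rfl⟩, ?_⟩
  have h5 : (Real.sqrt 5 : ℂ) ≠ 0 := by
    have := sqrt5_gt
    exact_mod_cast (by linarith : (0:ℝ) < Real.sqrt 5).ne'
  have hv2 : v.2 = psi * a' + b' := by
    have : (Real.sqrt 5 : ℂ) * a' = v.1 - v.2 := by rw [ha']; field_simp
    rw [← sub_phi_psi] at this
    rw [hb']
    linear_combination this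
  have hv1 : v.1 = phi * a' + b' := by rw [hb']; ring
  have hphi : ‖phi‖ ≤ 2 := by
    unfold phi
    rw [norm_real, Real.norm_of_nonneg Real.goldenRatio_pos.le]
    exact Real.goldenRatio_lt_two.le
  have hpsi : ‖psi‖ ≤ 2 := by
    unfold psi
    rw [norm_real, Real.norm_eq_abs, abs_le]
    constructor <;> linarith [Real.goldenConj_neg, Real.neg_one_lt_goldenConj]
  rw [Prod.norm_def]
  apply max_le
  · have : (v - lat a b).1 = phi * (a' - a) + (b' - b) := by
      unfold lat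
      rw [Prod.fst_sub, hv1]; ring
    rw [this]
    refine (norm_add_le _ _).trans ?_
    rw [norm_mul]
    nlinarith [norm_nonneg (a' - a), norm_nonneg phi]
  · have : (v - lat a b).2 = psi * (a' - a) + (b' - b) := by
      unfold lat
      rw [Prod.snd_sub, hv2]; ring
    rw [this]
    refine (norm_add_le _ _).trans ?_
    rw [norm_mul]
    nlinarith [norm_nonneg (a' - a), norm_nonneg psi]

/-! ## The group -/

/-- The group `ℤ² ⋉ L` of deck transformations. -/
@[ext] structure G where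
  /-- first translation -/
  m : ℤ
  /-- second translation -/
  n : ℤ
  /-- lattice part -/
  l : ℂ × ℂ
  /-- it is in the lattice -/
  hl : l ∈ Lat

instance : Mul G where
  mul g h := ⟨g.m + h.m, g.n + h.n, Apow g.m h.l + g.l, Lat.add_mem (Apow_mem _ h.hl) g.hl⟩

instance : One G where
  one := ⟨0, 0, 0, Lat.zero_mem⟩

theorem Apow_zero_vec (m : ℤ) : Apow m 0 = 0 := by unfold Apow; ext <;> simp

theorem Apow_neg_vec (m : ℤ) (v : ℂ × ℂ) : Apow m (-v) = -Apow m v := by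
  unfold Apow; ext <;> simp

instance : Inv G where
  inv g := ⟨-g.m, -g.n, -Apow (-g.m) g.l, Lat.neg_mem (Apow_mem _ g.hl)⟩

@[simp] theorem G.mul_m (g h : G) : (g * h).m = g.m + h.m := rfl
@[simp] theorem G.mul_n (g h : G) : (g * h).n = g.n + h.n := rfl
@[simp] theorem G.mul_l (g h : G) : (g * h).l = Apow g.m h.l + g.l := rfl
@[simp] theorem G.one_m : (1 : G).m = 0 := rfl
@[simp] theorem G.one_n : (1 : G).n = 0 := rfl
@[simp] theorem G.one_l : (1 : G).l = 0 := rfl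
@[simp] theorem G.inv_m (g : G) : (g⁻¹).m = -g.m := rfl
@[simp] theorem G.inv_n (g : G) : (g⁻¹).n = -g.n := rfl
@[simp] theorem G.inv_l (g : G) : (g⁻¹).l = -Apow (-g.m) g.l := rfl

instance : Group G := Group.ofLeftAxioms
  (by
    intro a b c
    apply G.ext
    · simp [add_assoc]
    · simp [add_assoc]
    · simp only [G.mul_l, G.mul_m, Apow_add, Apow_vadd, add_assoc])
  (by
    intro a
    apply G.ext
    · simp
    · simp
    · simp [Apow_zero])
  (by
    intro a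
    apply G.ext
    · simp
    · simp
    · simp only [G.mul_l, G.inv_m, G.inv_l, G.one_l, add_neg_cancel])

/-! ## The covering space -/

/-- `X × ℂ²` -/
def N : Type := X × (ℂ × ℂ)

instance : TopologicalSpace N := inferInstanceAs (TopologicalSpace (X × (ℂ × ℂ)))

instance : T2Space N := inferInstanceAs (T2Space (X × (ℂ × ℂ)))

instance : LocallyCompactSpace N := inferInstanceAs (LocallyCompactSpace (X × (ℂ × ℂ)))

instance : ConnectedSpace N := inferInstanceAs (ConnectedSpace (X × (ℂ × ℂ)))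

instance : ChartedSpace (ℂ × ℂ × ℂ) N :=
  inferInstanceAs (ChartedSpace (ModelProd ℂ (ℂ × ℂ)) (X × (ℂ × ℂ)))

instance : IsManifold 𝓘(ℂ, ℂ × ℂ × ℂ) ω N := by
  have h : IsManifold (𝓘(ℂ, ℂ).prod 𝓘(ℂ, ℂ × ℂ)) ω (X × (ℂ × ℂ)) := inferInstance
  rw [← modelWithCornersSelf_prod] at h
  exact h

/-- action of `G` on `N` -/
def Gact (g : G) (x : N) : N := (act g.m g.n x.1, Apow g.m x.2 + g.l)

instance : MulAction G N where
  smul := Gact
  one_smul x := by
    change Gact 1 x = x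
    unfold Gact
    apply Prod.ext
    · exact act_zero _
    · simp [Apow_zero]
  mul_smul g h x := by
    change Gact (g * h) x = Gact g (Gact h x)
    unfold Gact
    apply Prod.ext
    · simp only [act_act]; rfl
    · simp only [G.mul_l, G.mul_m, Apow_add, Apow_vadd, add_assoc]

theorem smul_fst (g : G) (x : N) : (g • x).1 = act g.m g.n x.1 := rfl

theorem smul_snd (g : G) (x : N) : (g • x).2 = Apow g.m x.2 + g.l := rfl

theorem continuous_Apow (m : ℤ) : Continuous (Apow m) := by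
  unfold Apow
  fun_prop

theorem contDiff_Apow (m : ℤ) : ContDiff ℂ ω (Apow m) := by
  unfold Apow
  fun_prop

theorem contMDiff_smul_G (g : G) :
    ContMDiff 𝓘(ℂ, ℂ × ℂ × ℂ) 𝓘(ℂ, ℂ × ℂ × ℂ) ω (fun x : N => g • x) := by
  have h : ContMDiff (𝓘(ℂ, ℂ).prod 𝓘(ℂ, ℂ × ℂ)) (𝓘(ℂ, ℂ).prod 𝓘(ℂ, ℂ × ℂ)) ω
      (fun x : X × (ℂ × ℂ) => (act g.m g.n x.1, Apow g.m x.2 + g.l)) := by
    apply ContMDiff.prodMk
    · exact (contMDiff_act g.m g.n).comp contMDiff_fst
    · have h2 : ContDiff ℂ ω (fun v : ℂ × ℂ => Apow g.m v + g.l) :=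
        (contDiff_Apow g.m).add contDiff_const
      exact h2.contMDiff.comp contMDiff_snd
  rw [← modelWithCornersSelf_prod] at h
  exact h

instance : ContinuousConstSMul G N := ⟨fun g => (contMDiff_smul_G g).continuous⟩

end Pool.Agent.Helper77.PH
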